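import Pool.Agent.LPC.Defs

/-! Row Q4: few dependent quadruples. -/

namespace Pool.Agent.LPC

open Pool.Agent.LPI

noncomputable section

/-- A vector orthogonal to three given vectors of `ℝ⁴`. -/
theorem q4_orth (v : Fin 3 → E4) : ∃ y : E4, y ≠ 0 ∧ ∀ w ∈ Submodule.span ℝ (Set.range v),
    inner ℝ y w = 0 := by
  have h1 : Module.finrank ℝ (Submodule.span ℝ (Set.range v)) ≤ 3 := by
    have := finrank_range_le_card (R := ℝ) v
    exact this.trans (by simp)
  have h2 : (Submodule.span ℝ (Set.range v))ᗮ ≠ ⊥ := by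
    intro h
    have h3 := Submodule.finrank_add_finrank_orthogonal (Submodule.span ℝ (Set.range v))
    rw [h, finrank_bot, finrank_euclideanSpace_fin] at h3
    omega
  obtain ⟨y, hy, hy0⟩ := Submodule.exists_mem_ne_zero_of_ne_bot h2
  exact ⟨y, hy0, fun w hw => (Submodule.mem_orthogonal' _ y).1 hy w hw⟩

theorem q4_inner (y : E4) (x : E3) :
    inner ℝ y (lift x) = y 0 + inner ℝ (!₂[y 1, y 2, y 3] : E3) x := by
  simp [lift, PiLp.inner_apply, Fin.sum_univ_succ]

/-- For given other three points, the fourth one lies in a plane if the four are dependent. -/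
theorem q4_plane {κ : Type} (q : κ → E3) (g : Fin 3 → κ) :
    ∃ (a : E3) (b : ℝ), a ≠ 0 ∧ ∀ x : κ,
      lift (q x) ∈ Submodule.span ℝ (Set.range fun t => lift (q (g t))) →
        inner ℝ a (q x) = b := by
  obtain ⟨y, hy, hy1⟩ := q4_orth fun t => lift (q (g t))
  refine ⟨!₂[y 1, y 2, y 3], - y 0, ?_, ?_⟩
  · intro h
    apply hy
    have h1 : y 1 = 0 := by simpa using congrFun (congrArg (fun z : E3 => (z : Fin 3 → ℝ)) h) 0
    have h2 : y 2 = 0 := by simpa using congrFun (congrArg (fun z : E3 => (z : Fin 3 → ℝ)) h) 1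
    have h3 : y 3 = 0 := by simpa using congrFun (congrArg (fun z : E3 => (z : Fin 3 → ℝ)) h) 2
    have h4 := hy1 _ (Submodule.subset_span ⟨0, rfl⟩)
    rw [q4_inner, h] at h4
    simp at h4
    ext i
    fin_cases i <;> simp [h1, h2, h3, h4]
  · intro x hx
    have h := hy1 _ hx
    rw [q4_inner] at h
    linarith

/-- Counting by the `s`-th coordinate. -/
theorem q4_count {X : Type} [Fintype X] (S : (Fin 3 → X) → X → Prop) (C : ℝ)
    (hS : ∀ g, (Nat.card {x // S g x} : ℝ) ≤ C) (s : Fin 4) :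
    (Nat.card {B : Fin 4 → X // S (s.removeNth B) (B s)} : ℝ) ≤ (Fintype.card X : ℝ) ^ 3 * C := by
  classical
  have h1 : Nat.card {B : Fin 4 → X // S (s.removeNth B) (B s)} ≤
      ∑ g : Fin 3 → X, Nat.card {x // S g x} := by
    rw [← Nat.card_sigma]
    refine Nat.card_le_card_of_injective (fun B : {B : Fin 4 → X // S (s.removeNth B) (B s)} =>
      (⟨s.removeNth B.1, ⟨B.1 s, B.2⟩⟩ : Σ g : Fin 3 → X, {x // S g x})) ?_
    rintro ⟨B, hB⟩ ⟨B', hB'⟩ h
    have h2 : s.removeNth B = s.removeNth B' :=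
      congrArg (fun q : Σ g : Fin 3 → X, {x // S g x} => q.1) h
    have h3 : B s = B' s := congrArg (fun q : Σ g : Fin 3 → X, {x // S g x} => q.2.1) h
    have h4 : B = B' := by
      rw [← Fin.insertNth_self_removeNth s B, ← Fin.insertNth_self_removeNth s B', h2, h3]
    exact Subtype.ext h4
  calc (Nat.card {B : Fin 4 → X // S (s.removeNth B) (B s)} : ℝ)
      ≤ ((∑ g : Fin 3 → X, Nat.card {x // S g x} : ℕ) : ℝ) := by exact_mod_cast h1
    _ = ∑ g : Fin 3 → X, (Nat.card {x // S g x} : ℝ) := by push_cast; rfl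
    _ ≤ ∑ _g : Fin 3 → X, C := Finset.sum_le_sum fun g _ => hS g
    _ = (Fintype.card X : ℝ) ^ 3 * C := by
        rw [Finset.sum_const, nsmul_eq_mul, Finset.card_univ, Fintype.card_fun, Fintype.card_fin]
        push_cast
        ring

/-- [Q4] few dependent quadruples (any finite family of points of `ℝ³`). -/
theorem dep_bound {κ : Type} [Fintype κ] (q : κ → E3) (C : ℝ)
    (hC : ∀ a : E3, a ≠ 0 → ∀ b : ℝ,
      (Nat.card {k : κ // inner ℝ a (q k) = b} : ℝ) ≤ C * Fintype.card κ) :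
    (Nat.card {B : Fin 4 → κ // ¬ LinearIndependent ℝ (fun s => lift (q (B s)))} : ℝ)
      ≤ 4 * C * (Fintype.card κ : ℝ) ^ 4 := by
  classical
  let S : (Fin 3 → κ) → κ → Prop := fun g x =>
    lift (q x) ∈ Submodule.span ℝ (Set.range fun t => lift (q (g t)))
  have hS : ∀ g, (Nat.card {x // S g x} : ℝ) ≤ C * Fintype.card κ := by
    intro g
    obtain ⟨a, b, ha, hab⟩ := q4_plane q g
    refine le_trans ?_ (hC a ha b)
    have : Nat.card {x // S g x} ≤ Nat.card {k : κ // inner ℝ a (q k) = b} := by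
      refine Nat.card_le_card_of_injective
        (fun x : {x // S g x} => (⟨x.1, hab x.1 x.2⟩ : {k : κ // inner ℝ a (q k) = b})) ?_
      intro x y hxy
      simp only [Subtype.mk.injEq] at hxy
      exact Subtype.ext hxy
    exact_mod_cast this
  have h1 : Nat.card {B : Fin 4 → κ // ¬ LinearIndependent ℝ (fun s => lift (q (B s)))} ≤
      ∑ s : Fin 4, Nat.card {B : Fin 4 → κ // S (s.removeNth B) (B s)} := by
    rw [← Nat.card_sigma]
    have key : ∀ B : Fin 4 → κ, ¬ LinearIndependent ℝ (fun s => lift (q (B s))) →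
        ∃ s : Fin 4, S (s.removeNth B) (B s) := by
      intro B hB
      rw [linearIndependent_iff_notMem_span] at hB
      push Not at hB
      obtain ⟨s, hs⟩ := hB
      refine ⟨s, ?_⟩
      refine Submodule.span_mono ?_ hs
      rintro _ ⟨t, ht, rfl⟩
      have hts : t ≠ s := by simpa using ht
      obtain ⟨t', rfl⟩ := Fin.exists_succAbove_eq hts
      exact ⟨t', rfl⟩
    choose f hf using key
    refine Nat.card_le_card_of_injective (fun B : {B : Fin 4 → κ //
      ¬ LinearIndependent ℝ (fun s => lift (q (B s)))} =>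
        (⟨f B.1 B.2, ⟨B.1, hf B.1 B.2⟩⟩ : Σ s : Fin 4, {B : Fin 4 → κ //
          S (s.removeNth B) (B s)})) ?_
    rintro ⟨B, hB⟩ ⟨B', hB'⟩ h
    have h2 : B = B' := congrArg (fun q : Σ s : Fin 4, {B : Fin 4 → κ //
          S (s.removeNth B) (B s)} => q.2.1) h
    subst h2
    rfl
  calc (Nat.card {B : Fin 4 → κ // ¬ LinearIndependent ℝ (fun s => lift (q (B s)))} : ℝ)
      ≤ ((∑ s : Fin 4, Nat.card {B : Fin 4 → κ // S (s.removeNth B) (B s)} : ℕ) : ℝ) := by
        exact_mod_cast h1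
    _ = ∑ s : Fin 4, (Nat.card {B : Fin 4 → κ // S (s.removeNth B) (B s)} : ℝ) := by
        push_cast
        rfl
    _ ≤ ∑ _s : Fin 4, (Fintype.card κ : ℝ) ^ 3 * (C * Fintype.card κ) :=
        Finset.sum_le_sum fun s _ => q4_count S _ hS s
    _ = 4 * C * (Fintype.card κ : ℝ) ^ 4 := by
        rw [Finset.sum_const, Finset.card_univ, Fintype.card_fin, nsmul_eq_mul]
        push_cast
        ring

end

end Pool.Agent.LPC
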