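import Pool.Agent.LPI.Fb
import Pool.Agent.LPC.Q4

/-! [A4] uniform isotropy of any finite family of points of `ℝ³` with few points in every plane,
from `LPI.frame` and the bound on the dependent quadruples (`dep_bound`, row [Q4]). -/

set_option autoImplicit false

namespace Pool.Agent.LPC

open Pool.Agent.LPI

noncomputable section

theorem a4_norm_unit_le (w : E4) : ‖unit w‖ ≤ 1 := by
  unfold unit
  rw [norm_smul, norm_inv, norm_norm]
  by_cases h : ‖w‖ = 0
  · rw [h]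
    simp
  · rw [inv_mul_cancel₀ h]

theorem a4_sq_inner_unit_le (ν w : E4) (hν : ‖ν‖ = 1) :
    (inner ℝ ν (unit w)) ^ 2 ≤ (1 : ℝ) := by
  have h1 := abs_real_inner_le_norm ν (unit w)
  rw [hν, one_mul] at h1
  have h2 := h1.trans (a4_norm_unit_le w)
  rw [← sq_abs]
  exact pow_le_one₀ (abs_nonneg _) h2

theorem a4_lift_ne_zero (x : E3) : lift x ≠ 0 := by
  intro h
  have h1 : lift x 0 = (0 : E4) 0 := by rw [h]
  unfold lift at h1
  simp at h1

/-- Double counting. -/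
theorem a4_sum_comp {ι : Type} [Fintype ι] [DecidableEq ι] (w : ι → ℝ) :
    ∑ B : Fin 4 → ι, ∑ s : Fin 4, w (B s) = 4 * (Fintype.card ι : ℝ) ^ 3 * ∑ i, w i := by
  rw [Finset.sum_comm]
  have h : ∀ s : Fin 4, ∑ B : Fin 4 → ι, w (B s) = (Fintype.card ι : ℝ) ^ 3 * ∑ i, w i := by
    intro s
    have h1 : ∑ B : Fin 4 → ι, w (B s) =
        ∑ q : ι × (({j : Fin 4 // j ≠ s}) → ι), w q.1 := by
      refine Fintype.sum_equiv (Equiv.funSplitAt s ι) _ _ fun B => ?_
      rfl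
    rw [h1, Fintype.sum_prod_type]
    simp only [Finset.sum_const, Finset.card_univ, nsmul_eq_mul]
    have h2 : Fintype.card ({j : Fin 4 // j ≠ s} → ι) = Fintype.card ι ^ 3 := by
      rw [Fintype.card_fun]
      congr 1
      rw [Fintype.card_subtype_compl]
      simp
    rw [h2, Finset.mul_sum]
    push_cast
    rfl
  simp only [h]
  rw [Finset.sum_const, Finset.card_univ, Fintype.card_fin, nsmul_eq_mul]
  push_cast
  ring

theorem uniform_iso_of
    (dep_bound : ∀ {κ : Type} [Fintype κ] (q : κ → E3) (C : ℝ)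
      (_ : ∀ a : E3, a ≠ 0 → ∀ b : ℝ,
        (Nat.card {k : κ // inner ℝ a (q k) = b} : ℝ) ≤ C * Fintype.card κ),
      (Nat.card {B : Fin 4 → κ // ¬ LinearIndependent ℝ (fun s => lift (q (B s)))} : ℝ)
        ≤ 4 * C * (Fintype.card κ : ℝ) ^ 4)
    {κ : Type} [Fintype κ] [Nonempty κ] (q : κ → E3)
    (hC : ∀ a : E3, a ≠ 0 → ∀ b : ℝ,
      (Nat.card {k : κ // inner ℝ a (q k) = b} : ℝ) ≤ (1 / 4000) * Fintype.card κ) :
    ∃ T : E4 ≃ₗ[ℝ] E4, ∀ ν : E4, ‖ν‖ = 1 →
      |(∑ k, (inner ℝ ν (unit (T (lift (q k))))) ^ 2) / (Fintype.card κ : ℝ) - 1 / 4| ≤ 1 / 400 := by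
  classical
  have hdep := dep_bound q (1 / 4000) hC
  set v : κ → E4 := fun k => lift (q k) with hv
  set Q : Finset (Fin 4 → κ) :=
    Finset.univ.filter fun B => LinearIndependent ℝ (fun s => v (B s)) with hQ
  set Qc : Finset (Fin 4 → κ) :=
    Finset.univ.filter fun B => ¬ LinearIndependent ℝ (fun s => v (B s)) with hQc
  set M : ℝ := (Fintype.card κ : ℝ) with hM
  have hM0 : 0 < M := by
    rw [hM]
    exact_mod_cast Fintype.card_pos
  have hQc' : (Qc.card : ℝ) ≤ 1 / 1000 * M ^ 4 := by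
    have h1 : Nat.card {B : Fin 4 → κ //
        ¬ LinearIndependent ℝ (fun s => lift (q (B s)))} = Qc.card := by
      rw [Nat.card_eq_fintype_card, Fintype.card_subtype]
    rw [h1] at hdep
    refine hdep.trans (le_of_eq ?_)
    ring
  have hsum : (Q.card : ℝ) + Qc.card = M ^ 4 := by
    have h1 : Q.card + Qc.card = Fintype.card (Fin 4 → κ) := by
      rw [hQ, hQc, Finset.card_filter_add_card_filter_not]
      exact Finset.card_univ
    have h2 : (Fintype.card (Fin 4 → κ) : ℝ) = M ^ 4 := by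
      rw [Fintype.card_fun, Fintype.card_fin, Nat.cast_pow]
    rw [← h2, ← h1]
    push_cast
    rfl
  have hM4 : 0 < M ^ 4 := by positivity
  have hQ0 : (0 : ℝ) < Q.card := by
    have : 1 / 1000 * M ^ 4 < M ^ 4 := by linarith
    linarith
  have hQn : Q.Nonempty := Finset.card_pos.1 (by exact_mod_cast hQ0)
  obtain ⟨T, hT⟩ := frame (1 / 1000) (by norm_num) v (fun k => a4_lift_ne_zero _) Q hQn
    (fun B hB => (Finset.mem_filter.1 hB).2)
  refine ⟨T, fun ν hν => ?_⟩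
  have h0 := hT ν hν
  set w : κ → ℝ := fun k => (inner ℝ ν (unit (T (v k)))) ^ 2 with hw
  have hw0 : ∀ k, 0 ≤ w k := fun k => sq_nonneg _
  have hw1 : ∀ k, w k ≤ 1 := fun k => a4_sq_inner_unit_le ν _ hν
  have hs : (∑ k, (inner ℝ ν (unit (T (lift (q k))))) ^ 2) = ∑ k, w k := rfl
  rw [hs]
  set SQ : ℝ := ∑ B ∈ Q, ∑ s : Fin 4, w (B s) with hSQ
  set SC : ℝ := ∑ B ∈ Qc, ∑ s : Fin 4, w (B s) with hSC
  have htot : SQ + SC = 4 * M ^ 3 * ∑ k, w k := by
    rw [hM, ← a4_sum_comp w, hSQ, hSC, hQ, hQc, Finset.sum_filter_add_sum_filter_not]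
  have hSC0 : 0 ≤ SC := Finset.sum_nonneg fun B _ => Finset.sum_nonneg fun s _ => hw0 _
  have hSC1 : SC ≤ 4 * Qc.card := by
    calc SC ≤ ∑ B ∈ Qc, (4 : ℝ) := Finset.sum_le_sum fun B _ => by
          calc ∑ s : Fin 4, w (B s) ≤ ∑ _s : Fin 4, (1 : ℝ) := Finset.sum_le_sum fun s _ => hw1 _
            _ = 4 := by simp
      _ = 4 * Qc.card := by
          rw [Finset.sum_const, nsmul_eq_mul]
          ring
  -- the average over the pairs
  have e : (∑ k, w k) / M = (SQ + SC) / (4 * M ^ 4) := by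
    rw [htot]
    field_simp
  rw [e]
  obtain ⟨h1, h2⟩ := abs_le.1 h0
  have h4Q : (0 : ℝ) < 4 * Q.card := by positivity
  have h3 : (1 / 4 - 1 / 1000) * (4 * Q.card) ≤ SQ := by
    have : 1 / 4 - 1 / 1000 ≤ SQ / (4 * Q.card) := by linarith
    exact (le_div_iff₀ h4Q).1 this
  have h5 : SQ ≤ (1 / 4 + 1 / 1000) * (4 * Q.card) := by
    have : SQ / (4 * Q.card) ≤ 1 / 4 + 1 / 1000 := by linarith
    exact (div_le_iff₀ h4Q).1 this
  rw [abs_le]
  constructor
  · have : 1 / 4 - 1 / 400 ≤ (SQ + SC) / (4 * M ^ 4) := by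
      rw [le_div_iff₀ (by positivity)]
      nlinarith
    linarith
  · have : (SQ + SC) / (4 * M ^ 4) ≤ 1 / 4 + 1 / 400 := by
      rw [div_le_iff₀ (by positivity)]
      nlinarith
    linarith

/-- [A4] uniform isotropy for any finite family of points of `ℝ³` with few in every plane. -/
theorem uniform_iso {κ : Type} [Fintype κ] [Nonempty κ] (q : κ → E3)
    (hC : ∀ a : E3, a ≠ 0 → ∀ b : ℝ,
      (Nat.card {k : κ // inner ℝ a (q k) = b} : ℝ) ≤ (1 / 4000) * Fintype.card κ) :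
    ∃ T : E4 ≃ₗ[ℝ] E4, ∀ ν : E4, ‖ν‖ = 1 →
      |(∑ k, (inner ℝ ν (unit (T (lift (q k))))) ^ 2) / (Fintype.card κ : ℝ) - 1 / 4| ≤ 1 / 400 :=
  uniform_iso_of (fun q C h => dep_bound q C h) q hC

end

end Pool.Agent.LPC
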