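import Pool.Agent.LPC.Defs
import Pool.Agent.LPI.RowC

set_option autoImplicit false

/-! Row C4: a finite net of planes meets some cone of every four-coloured isotropic array. -/

namespace Pool.Agent.LPC

open Pool.Agent.LPI
open scoped Topology

noncomputable section

theorem rowC4_closed (r : ℕ) :
    IsClosed {u : Fin 4 × Fin r → Fin 4 × Fin r → E4 | Iso4 r u} := by
  unfold Iso4
  simp only [Set.ofPred_and, Set.ofPred_forall]
  refine IsClosed.inter ?_ (IsClosed.inter ?_ ?_)
  · refine isClosed_iInter fun a => isClosed_iInter fun b => ?_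
    exact isClosed_eq (by fun_prop) continuous_const
  · refine isClosed_iInter fun a => isClosed_iInter fun b => ?_
    exact isClosed_eq (by fun_prop) (by fun_prop)
  · refine isClosed_iInter fun ν => isClosed_iInter fun _ => ?_
    refine isClosed_le ?_ continuous_const
    refine continuous_abs.comp (Continuous.sub ?_ continuous_const)
    refine continuous_finsetSum _ fun a _ => continuous_finsetSum _ fun b _ => ?_
    by_cases hab : a.1 = b.1
    · simp only [hab, if_true]
      exact continuous_const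
    · simp only [hab, if_false]
      fun_prop

theorem rowC4_compact (r : ℕ) :
    IsCompact {u : Fin 4 × Fin r → Fin 4 × Fin r → E4 | Iso4 r u} := by
  refine Metric.isCompact_of_isClosed_isBounded (rowC4_closed r) ?_
  refine (Metric.isBounded_closedBall (x := (0 : Fin 4 × Fin r → Fin 4 × Fin r → E4))
    (r := 1)).subset ?_
  intro u hu
  rw [mem_closedBall_zero_iff]
  rw [pi_norm_le_iff_of_nonneg zero_le_one]
  intro a
  rw [pi_norm_le_iff_of_nonneg zero_le_one]
  intro b
  exact (hu.1 a b).le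

theorem rowC4_nhds {V : Type} [Fintype V] (u : V → V → E4) (a b c d : V) (w : E4)
    (hdet : (rowC_M (u a b) (u a c) (u a d) w).det ≠ 0) :
    {u' : V → V → E4 | ∃ (α β γ ω : ℝ), 0 < α ∧ 0 < β ∧ 0 < γ ∧
      α • u' a b + β • u' a c + γ • u' a d = (u a b + u a c + u a d) + ω • w} ∈ 𝓝 u := by
  set M : (V → V → E4) → Matrix (Fin 4) (Fin 4) ℝ := fun u' =>
    rowC_M (u' a b) (u' a c) (u' a d) w with hM
  set s : Fin 4 → ℝ := fun i => (u a b + u a c + u a d) i with hs
  set f : (V → V → E4) → Fin 4 → ℝ := fun u' =>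
    ((M u').det)⁻¹ • ((M u').adjugate).mulVec s with hf
  have hMc : Continuous M := by
    refine continuous_matrix fun i j => ?_
    simp only [hM, rowC_M, Matrix.of_apply]
    fin_cases j
    · show Continuous fun u' : V → V → E4 => u' a b i
      fun_prop
    · show Continuous fun u' : V → V → E4 => u' a c i
      fun_prop
    · show Continuous fun u' : V → V → E4 => u' a d i
      fun_prop
    · show Continuous fun u' : V → V → E4 => -w i
      fun_prop
  have hfc : ContinuousAt f u := by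
    have c1 : ContinuousAt (fun u' => ((M u').det)⁻¹) u :=
      ContinuousAt.inv₀ (hMc.matrix_det).continuousAt hdet
    have c2 : ContinuousAt (fun u' => ((M u').adjugate).mulVec s) u :=
      (Continuous.matrix_mulVec (hMc.matrix_adjugate) continuous_const).continuousAt
    exact c1.smul c2
  have hfu : f u = ![1, 1, 1, 0] := by
    have h1 : (M u).mulVec ![1, 1, 1, 0] = s := by
      funext i
      simp only [hM]
      rw [rowC_mulVec]
      simp [hs]
    rw [hf]
    simp only
    rw [← h1, Matrix.mulVec_mulVec, Matrix.adjugate_mul, Matrix.smul_mulVec, Matrix.one_mulVec,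
      smul_smul, inv_mul_cancel₀ hdet, one_smul]
  have hdetn : ∀ᶠ u' in 𝓝 u, (M u').det ≠ 0 :=
    (hMc.matrix_det).continuousAt.eventually_ne hdet
  have hpos : ∀ j : Fin 4, j ≠ 3 → ∀ᶠ u' in 𝓝 u, 0 < f u' j := by
    intro j hj
    have h1 : ContinuousAt (fun u' => f u' j) u := (continuous_apply j).continuousAt.comp hfc
    refine h1.eventually (lt_mem_nhds ?_)
    show 0 < f u j
    rw [hfu]
    fin_cases j
    · simp
    · simp
    · simp
    · exact absurd rfl hj
  filter_upwards [hdetn, hpos 0 (by decide), hpos 1 (by decide), hpos 2 (by decide)]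
    with u' h1 h2 h3 h4
  refine ⟨f u' 0, f u' 1, f u' 2, f u' 3, h2, h3, h4, ?_⟩
  apply rowC_vec
  show (M u').mulVec (f u') = s
  rw [hf]
  simp only
  rw [Matrix.mulVec_smul, Matrix.mulVec_mulVec, Matrix.mul_adjugate, Matrix.smul_mulVec,
    Matrix.one_mulVec, smul_smul, inv_mul_cancel₀ h1, one_smul]

/-- [C4] a finite net of planes meets some cone of every four-coloured isotropic array. -/
theorem net_of (r : ℕ) (hrow : ∀ u : Fin 4 × Fin r → Fin 4 × Fin r → E4, Iso4 r u →
    ∃ v w₁ w₂ w₃ : Fin 4 × Fin r, v.1 ≠ w₁.1 ∧ v.1 ≠ w₂.1 ∧ v.1 ≠ w₃.1 ∧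
      LinearIndependent ℝ ![u v w₁, u v w₂, u v w₃]) :
    ∃ (N : ℕ) (S W : Fin N → E4), (∀ k, LinearIndependent ℝ ![S k, W k]) ∧
      ∀ u : Fin 4 × Fin r → Fin 4 × Fin r → E4, Iso4 r u →
        ∃ (k : Fin N) (v w₁ w₂ w₃ : Fin 4 × Fin r) (α β γ ω : ℝ),
          v.1 ≠ w₁.1 ∧ v.1 ≠ w₂.1 ∧ v.1 ≠ w₃.1 ∧ 0 < α ∧ 0 < β ∧ 0 < γ ∧
          α • u v w₁ + β • u v w₂ + γ • u v w₃ = S k + ω • W k := by
  have hch : ∀ u : Fin 4 × Fin r → Fin 4 × Fin r → E4, Iso4 r u → ∃ S W : E4,
      LinearIndependent ℝ ![S, W] ∧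
      {u' : Fin 4 × Fin r → Fin 4 × Fin r → E4 |
        ∃ (v w₁ w₂ w₃ : Fin 4 × Fin r) (α β γ ω : ℝ),
          v.1 ≠ w₁.1 ∧ v.1 ≠ w₂.1 ∧ v.1 ≠ w₃.1 ∧ 0 < α ∧ 0 < β ∧ 0 < γ ∧
          α • u' v w₁ + β • u' v w₂ + γ • u' v w₃ = S + ω • W} ∈ 𝓝 u := by
    intro u hu
    obtain ⟨v, w₁, w₂, w₃, g1, g2, g3, h⟩ := hrow u hu
    obtain ⟨w, hw⟩ := rowC_det _ _ _ h
    refine ⟨u v w₁ + u v w₂ + u v w₃, w, ?_, ?_⟩
    · rw [LinearIndependent.pair_iff]
      intro s' t' hst
      by_contra hne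
      apply hw
      apply Matrix.exists_mulVec_eq_zero_iff.1
      refine ⟨![s', s', s', -t'], ?_, ?_⟩
      · intro h0
        apply hne
        have e0 := congrFun h0 0
        have e3 := congrFun h0 3
        simp at e0 e3
        exact ⟨e0, e3⟩
      · funext i
        rw [rowC_mulVec]
        have := congrArg (fun v : E4 => v i) hst
        simp only [PiLp.add_apply, PiLp.smul_apply, smul_eq_mul, PiLp.zero_apply] at this
        simp
        linarith
    · refine Filter.mem_of_superset (rowC4_nhds u v w₁ w₂ w₃ w hw) ?_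
      rintro u' ⟨α, β, γ, ω, h1, h2, h3, h4⟩
      exact ⟨v, w₁, w₂, w₃, α, β, γ, ω, g1, g2, g3, h1, h2, h3, h4⟩
  choose! fS fW hfi hfn using hch
  obtain ⟨t, ht, hcov⟩ := (rowC4_compact r).elim_nhds_subcover _ (fun u hu => hfn u hu)
  set e := t.equivFin with he
  refine ⟨t.card, fun k => fS (e.symm k).1, fun k => fW (e.symm k).1, ?_, ?_⟩
  · intro k
    exact hfi _ (ht _ (e.symm k).2)
  · intro u hu
    have hm := hcov hu
    rw [Set.mem_iUnion₂] at hm
    obtain ⟨u0, hu0, v, w₁, w₂, w₃, α, β, γ, ω, g1, g2, g3, h1, h2, h3, h4⟩ := hm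
    refine ⟨e ⟨u0, hu0⟩, v, w₁, w₂, w₃, α, β, γ, ω, g1, g2, g3, h1, h2, h3, ?_⟩
    simp only [Equiv.symm_apply_apply]
    exact h4

end

end Pool.Agent.LPC
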