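import Pool.Agent.LPC.Defs

/-!
# Row D4: a nearly isotropic four-coloured array has a row with three independent vectors
-/

namespace Pool.Agent.LPC

open Pool.Agent.LPI Module
open scoped BigOperators

noncomputable section

/-! ### Linear algebra -/

theorem d4_span {L W : Submodule ℝ E4} (hL : finrank ℝ L ≤ 2) {x y : E4} (hx : x ∈ L) (hy : y ∈ L)
    (hxy : LinearIndependent ℝ ![x, y]) (hxW : x ∈ W) (hyW : y ∈ W) : L ≤ W := by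
  have h1 : Submodule.span ℝ (Set.range ![x, y]) ≤ L := by
    rw [Submodule.span_le]
    rintro v ⟨i, rfl⟩
    fin_cases i
    · exact hx
    · exact hy
  have h2 : finrank ℝ (Submodule.span ℝ (Set.range ![x, y])) = 2 := by
    rw [finrank_span_eq_card hxy]
    rfl
  have h3 : Submodule.span ℝ (Set.range ![x, y]) = L :=
    Submodule.eq_of_le_of_finrank_le h1 (by rw [h2]; exact hL)
  rw [← h3, Submodule.span_le]
  rintro v ⟨i, rfl⟩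
  fin_cases i
  · exact hxW
  · exact hyW

/-- A plane not in `W` meets `W` in at most a line. -/
theorem d4_T3 {L W M : Submodule ℝ E4} (hL : finrank ℝ L ≤ 2) (hLW : ¬ L ≤ W) {q z : E4}
    (hqL : q ∈ L) (hzL : z ∈ L) (hqW : q ∈ W) (hzW : z ∈ W) (hz : z ≠ 0) (hzM : z ∈ M) : q ∈ M := by
  by_contra hqM
  apply hLW
  apply d4_span hL hzL hqL _ hzW hqW
  rw [LinearIndependent.pair_iff' hz]
  intro a ha
  apply hqM
  rw [← ha]
  exact M.smul_mem a hzM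

theorem d4_T0 {L M : Submodule ℝ E4} (hL : finrank ℝ L ≤ 1) {q z : E4}
    (hqL : q ∈ L) (hzL : z ∈ L) (hz : z ≠ 0) (hzM : z ∈ M) : q ∈ M := by
  obtain ⟨v, hv⟩ := finrank_le_one_iff.1 hL
  obtain ⟨a, ha⟩ := hv ⟨z, hzL⟩
  obtain ⟨b, hb⟩ := hv ⟨q, hqL⟩
  have ha' : a • (v : E4) = z := by
    have := congrArg (Subtype.val) ha
    simpa using this
  have hb' : b • (v : E4) = q := by
    have := congrArg (Subtype.val) hb
    simpa using this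
  have ha0 : a ≠ 0 := by
    rintro rfl
    rw [zero_smul] at ha'
    exact hz ha'.symm
  have : q = (b * a⁻¹) • z := by
    rw [← ha', ← hb', smul_smul, mul_assoc, inv_mul_cancel₀ ha0, mul_one]
  rw [this]
  exact M.smul_mem _ hzM

theorem d4_fact {L₁ L₂ L : Submodule ℝ E4} (h1 : finrank ℝ L₁ ≤ 2) (h2 : finrank ℝ L₂ ≤ 2)
    (h : finrank ℝ L ≤ 2) (hne : L₁ ≠ L₂) {q x y : E4} (hq1 : q ∈ L₁) (hq2 : q ∈ L₂) (hx : x ≠ 0)
    (hxL : x ∈ L) (hx1 : x ∈ L₁) (hy : y ≠ 0) (hyL : y ∈ L) (hy2 : y ∈ L₂) :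
    q ∈ L ∨ L ≤ L₁ ⊔ L₂ := by
  by_contra hcon
  push Not at hcon
  obtain ⟨hq, hW⟩ := hcon
  have hx2 : x ∈ L₂ := d4_T3 h hW hxL hyL (Submodule.mem_sup_left hx1) (Submodule.mem_sup_right hy2)
    hy hy2
  apply hq
  by_cases h12 : L₁ ≤ L₂
  · have h21 : ¬ L₂ ≤ L₁ := fun h => hne (le_antisymm h12 h)
    exact d4_T3 h2 h21 hq2 hx2 hq1 hx1 hx hxL
  · exact d4_T3 h1 h12 hq1 hx1 hq2 hx2 hx hxL

theorem d4_sup {L₁ L₂ : Submodule ℝ E4} (h1 : finrank ℝ L₁ ≤ 2) (h2 : finrank ℝ L₂ ≤ 2) {q : E4}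
    (hq : q ≠ 0) (hq1 : q ∈ L₁) (hq2 : q ∈ L₂) : finrank ℝ ↥(L₁ ⊔ L₂) ≤ 3 := by
  have h3 := Submodule.finrank_sup_add_finrank_inf_eq L₁ L₂
  have h4 : 1 ≤ finrank ℝ ↥(L₁ ⊓ L₂) := by
    rw [Submodule.one_le_finrank_iff]
    intro h
    have : q ∈ L₁ ⊓ L₂ := ⟨hq1, hq2⟩
    rw [h] at this
    exact hq ((Submodule.mem_bot ℝ).1 this)
  omega

/-! ### The common vector -/

section common

variable {r : ℕ} {u : Fin 4 × Fin r → Fin 4 × Fin r → E4} {L : Fin 4 × Fin r → Submodule ℝ E4}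

theorem d4_third : ∀ s i j : Fin 4, s ≠ i → s ≠ j → i ≠ j → ∃ k, k ≠ s ∧ k ≠ i ∧ k ≠ j := by decide

theorem d4_cover : ∀ s i j k c : Fin 4, i ≠ s → j ≠ s → k ≠ s → i ≠ j → k ≠ i → k ≠ j → c ≠ s →
    c = i ∨ c = j ∨ c = k := by decide

theorem d4_other : ∀ s : Fin 4, ∃ k, k ≠ s := by decide

theorem d4_out (h1 : ∀ v w, v.1 ≠ w.1 → u v w ∈ L v) (h2 : ∀ v w, v.1 ≠ w.1 → u v w ∈ L w)
    (H1 : ∀ W : Submodule ℝ E4, finrank ℝ W ≤ 3 → ∃ v w, v.1 ≠ w.1 ∧ u v w ∉ W)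
    (s : Fin 4) (W : Submodule ℝ E4) (hW : finrank ℝ W ≤ 3) :
    ∃ x : Fin 4 × Fin r, x.1 ≠ s ∧ ¬ L x ≤ W := by
  obtain ⟨v, w, hvw, h⟩ := H1 W hW
  by_cases hv : v.1 = s
  · refine ⟨w, ?_, fun hle => h (hle (h2 v w hvw))⟩
    intro hw
    exact hvw (hv.trans hw.symm)
  · exact ⟨v, hv, fun hle => h (hle (h1 v w hvw))⟩

theorem d4_case1 (hr : 1 ≤ r) (hd : ∀ v, finrank ℝ (L v) ≤ 2) (h0 : ∀ v w, u v w ≠ 0)
    (h1 : ∀ v w, v.1 ≠ w.1 → u v w ∈ L v) (h2 : ∀ v w, v.1 ≠ w.1 → u v w ∈ L w)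
    (H1 : ∀ W : Submodule ℝ E4, finrank ℝ W ≤ 3 → ∃ v w, v.1 ≠ w.1 ∧ u v w ∉ W)
    (v₀ : Fin 4 × Fin r) (hv₀ : finrank ℝ (L v₀) ≤ 1) : ∃ q : E4, q ≠ 0 ∧ ∀ v, q ∈ L v := by
  obtain ⟨k, hk⟩ := d4_other v₀.1
  set q := u v₀ (k, ⟨0, hr⟩) with hq
  have hq0 : q ≠ 0 := h0 _ _
  have hqv : q ∈ L v₀ := h1 _ _ (Ne.symm hk)
  have hcr : ∀ w : Fin 4 × Fin r, v₀.1 ≠ w.1 → q ∈ L w := fun w hw =>
    d4_T0 hv₀ hqv (h1 v₀ w hw) (h0 _ _) (h2 v₀ w hw)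
  refine ⟨q, hq0, fun v => ?_⟩
  by_contra hqn
  have hv : v.1 = v₀.1 := by
    by_contra h
    exact hqn (hcr v (Ne.symm h))
  have hW : finrank ℝ ↥(L v ⊔ Submodule.span ℝ {q}) ≤ 3 := by
    have e1 := Submodule.finrank_add_le_finrank_add_finrank (L v) (Submodule.span ℝ {q})
    have e2 := finrank_span_singleton (K := ℝ) hq0
    have e3 := hd v
    omega
  obtain ⟨x, hx, hxW⟩ := d4_out h1 h2 H1 v₀.1 _ hW
  have hvx : v.1 ≠ x.1 := by rw [hv]; exact Ne.symm hx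
  exact hqn (d4_T3 (hd x) hxW (hcr x (Ne.symm hx)) (h2 v x hvx)
    (Submodule.mem_sup_right (Submodule.mem_span_singleton_self q))
    (Submodule.mem_sup_left (h1 v x hvx)) (h0 _ _) (h1 v x hvx))

theorem d4_star (hd : ∀ v, finrank ℝ (L v) = 2) (h0 : ∀ v w, u v w ≠ 0)
    (h1 : ∀ v w, v.1 ≠ w.1 → u v w ∈ L v) (h2 : ∀ v w, v.1 ≠ w.1 → u v w ∈ L w)
    {a a' : Fin 4 × Fin r} (haa : a'.1 = a.1) (hdis : L a ⊓ L a' = ⊥)
    {w w' d : Fin 4 × Fin r} (hw : w.1 ≠ a.1) (hw' : w'.1 ≠ a.1) (hda : d.1 ≠ a.1)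
    (hww : w.1 ≠ w'.1) (hdw : d.1 ≠ w.1) (hdw' : d.1 ≠ w'.1) (hne : L w ≠ L w') :
    L d ≤ L w ⊔ L w' := by
  have hd' : ∀ v, finrank ℝ (L v) ≤ 2 := fun v => (hd v).le
  by_contra hW
  set q := u w w' with hq
  have hq0 : q ≠ 0 := h0 _ _
  have hq1 : q ∈ L w := h1 _ _ hww
  have hq2 : q ∈ L w' := h2 _ _ hww
  have hqd : q ∈ L d := (d4_fact (hd' w) (hd' w') (hd' d) hne hq1 hq2 (h0 d w) (h1 _ _ hdw)
    (h2 _ _ hdw) (h0 d w') (h1 _ _ hdw') (h2 _ _ hdw')).resolve_right hW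
  have hA := d4_fact (hd' w) (hd' w') (hd' a) hne hq1 hq2 (h0 a w) (h1 _ _ (Ne.symm hw))
    (h2 _ _ (Ne.symm hw)) (h0 a w') (h1 _ _ (Ne.symm hw')) (h2 _ _ (Ne.symm hw'))
  have hw2 : a'.1 ≠ w.1 := by rw [haa]; exact Ne.symm hw
  have hw2' : a'.1 ≠ w'.1 := by rw [haa]; exact Ne.symm hw'
  have hA' := d4_fact (hd' w) (hd' w') (hd' a') hne hq1 hq2 (h0 a' w) (h1 _ _ hw2)
    (h2 _ _ hw2) (h0 a' w') (h1 _ _ hw2') (h2 _ _ hw2')
  have nb : ¬ (q ∈ L a ∧ q ∈ L a') := by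
    intro h
    have : q ∈ L a ⊓ L a' := h
    rw [hdis] at this
    exact hq0 ((Submodule.mem_bot ℝ).1 this)
  have nW : ¬ (L a ≤ L w ⊔ L w' ∧ L a' ≤ L w ⊔ L w') := by
    rintro ⟨e1, e2⟩
    have e3 := Submodule.finrank_sup_add_finrank_inf_eq (L a) (L a')
    rw [hdis, finrank_bot, hd, hd] at e3
    have e4 : finrank ℝ ↥(L a ⊔ L a') ≤ finrank ℝ ↥(L w ⊔ L w') :=
      Submodule.finrank_mono (sup_le e1 e2)
    have e5 := d4_sup (hd' w) (hd' w') hq0 hq1 hq2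
    omega
  have fin : ∀ b : Fin 4 × Fin r, d.1 ≠ b.1 → L b ≤ L w ⊔ L w' → q ∈ L b := fun b hb hbW =>
    d4_T3 (hd' d) hW hqd (h1 d b hb) (Submodule.mem_sup_left hq1) (hbW (h2 d b hb)) (h0 _ _)
      (h2 d b hb)
  rcases hA with qa | Wa
  · rcases hA' with qa' | Wa'
    · exact nb ⟨qa, qa'⟩
    · exact nb ⟨qa, fin a' (by rw [haa]; exact hda) Wa'⟩
  · rcases hA' with qa' | Wa'
    · exact nb ⟨fin a hda Wa, qa'⟩
    · exact nW ⟨Wa, Wa'⟩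

theorem d4_key (hd : ∀ v, finrank ℝ (L v) = 2) (h0 : ∀ v w, u v w ≠ 0)
    (h1 : ∀ v w, v.1 ≠ w.1 → u v w ∈ L v) (h2 : ∀ v w, v.1 ≠ w.1 → u v w ∈ L w)
    (H1 : ∀ W : Submodule ℝ E4, finrank ℝ W ≤ 3 → ∃ v w, v.1 ≠ w.1 ∧ u v w ∉ W)
    (HX : ∀ W : Submodule ℝ E4, finrank ℝ W ≤ 2 → ∀ t t' : Fin 4, t ≠ t' →
      ¬ ∀ v : Fin 4 × Fin r, (v.1 = t ∨ v.1 = t') → L v = W)
    {a a' : Fin 4 × Fin r} (haa : a'.1 = a.1) (hdis : L a ⊓ L a' = ⊥)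
    {w w' d : Fin 4 × Fin r} (hw : w.1 ≠ a.1) (hw' : w'.1 ≠ a.1) (hda : d.1 ≠ a.1)
    (hww : w.1 ≠ w'.1) (hdw : d.1 ≠ w.1) (hdw' : d.1 ≠ w'.1) (hne : L w ≠ L w')
    (hne2 : L d ≠ L w) : False := by
  have hd' : ∀ v, finrank ℝ (L v) ≤ 2 := fun v => (hd v).le
  have hW3 : finrank ℝ ↥(L w ⊔ L w') ≤ 3 :=
    d4_sup (hd' w) (hd' w') (h0 w w') (h1 _ _ hww) (h2 _ _ hww)
  have hD : ∀ x : Fin 4 × Fin r, x.1 = d.1 → L x ≤ L w ⊔ L w' := fun x hx =>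
    d4_star hd h0 h1 h2 haa hdis hw hw' (by rw [hx]; exact hda) hww (by rw [hx]; exact hdw)
      (by rw [hx]; exact hdw') hne
  have hT : ∀ x : Fin 4 × Fin r, x.1 = w'.1 → L x ≤ L w ⊔ L w' := fun x hx =>
    (d4_star hd h0 h1 h2 haa hdis hw hda (by rw [hx]; exact hw') (Ne.symm hdw)
      (by rw [hx]; exact Ne.symm hww) (by rw [hx]; exact Ne.symm hdw') (Ne.symm hne2)).trans
      (sup_le le_sup_left (hD d rfl))
  by_cases hall : ∃ x y : Fin 4 × Fin r, x.1 = w'.1 ∧ y.1 = d.1 ∧ L x ≠ L y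
  · obtain ⟨x, y, hx, hy, hxy⟩ := hall
    have hS : ∀ z : Fin 4 × Fin r, z.1 = w.1 → L z ≤ L w ⊔ L w' := fun z hz =>
      (d4_star hd h0 h1 h2 haa hdis (w := x) (w' := y) (d := z) (by rw [hx]; exact hw')
        (by rw [hy]; exact hda) (by rw [hz]; exact hw) (by rw [hx, hy]; exact Ne.symm hdw')
        (by rw [hz, hx]; exact hww) (by rw [hz, hy]; exact Ne.symm hdw) hxy).trans
        (sup_le (hT x hx) (hD y hy))
    obtain ⟨z, hz, hzW⟩ := d4_out h1 h2 H1 a.1 _ hW3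
    rcases d4_cover a.1 w.1 w'.1 d.1 z.1 hw hw' hda hww hdw hdw' hz with h | h | h
    · exact hzW (hS z h)
    · exact hzW (hT z h)
    · exact hzW (hD z h)
  · push Not at hall
    refine HX (L d) (hd' d) w'.1 d.1 (Ne.symm hdw') ?_
    rintro v (hv | hv)
    · exact hall v d hv rfl
    · exact (hall w' v rfl hv).symm.trans (hall w' d rfl rfl)

theorem d4_common (hr : 1 ≤ r) (hd : ∀ v, finrank ℝ (L v) ≤ 2) (h0 : ∀ v w, u v w ≠ 0)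
    (h1 : ∀ v w, v.1 ≠ w.1 → u v w ∈ L v) (h2 : ∀ v w, v.1 ≠ w.1 → u v w ∈ L w)
    (H1 : ∀ W : Submodule ℝ E4, finrank ℝ W ≤ 3 → ∃ v w, v.1 ≠ w.1 ∧ u v w ∉ W)
    (HX : ∀ W : Submodule ℝ E4, finrank ℝ W ≤ 2 → ∀ t t' : Fin 4, t ≠ t' →
      ¬ ∀ v : Fin 4 × Fin r, (v.1 = t ∨ v.1 = t') → L v = W) :
    ∃ q : E4, q ≠ 0 ∧ ∀ v, q ∈ L v := by
  by_cases hc1 : ∃ v₀, finrank ℝ (L v₀) ≤ 1
  · obtain ⟨v₀, hv₀⟩ := hc1
    exact d4_case1 hr hd h0 h1 h2 H1 v₀ hv₀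
  push Not at hc1
  have hd2 : ∀ v, finrank ℝ (L v) = 2 := fun v => le_antisymm (hd v) (hc1 v)
  by_cases hc2 : ∃ a a' : Fin 4 × Fin r, a'.1 = a.1 ∧ L a ⊓ L a' = ⊥
  · exfalso
    obtain ⟨a, a', haa, hdis⟩ := hc2
    obtain ⟨k, hk⟩ := d4_other a.1
    obtain ⟨b, hb⟩ : ∃ b : Fin 4 × Fin r, b.1 ≠ a.1 := ⟨(k, ⟨0, hr⟩), hk⟩
    obtain ⟨x, hx, hxb⟩ := d4_out h1 h2 H1 a.1 (L b) ((hd b).trans (by norm_num))
    have hxb' : L x ≠ L b := fun h => hxb h.le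
    obtain ⟨w, w', hw, hw', hww, hne⟩ : ∃ w w' : Fin 4 × Fin r, w.1 ≠ a.1 ∧ w'.1 ≠ a.1 ∧
        w.1 ≠ w'.1 ∧ L w ≠ L w' := by
      by_cases hxb1 : x.1 = b.1
      · obtain ⟨m, hm⟩ : ∃ m : Fin 4, m ≠ a.1 ∧ m ≠ b.1 := by
          revert hb
          generalize a.1 = i
          generalize b.1 = j
          revert i j
          decide
        by_cases hy : L ((m, ⟨0, hr⟩) : Fin 4 × Fin r) = L b
        · refine ⟨x, (m, ⟨0, hr⟩), hx, hm.1, ?_, ?_⟩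
          · rw [hxb1]; exact Ne.symm hm.2
          · rw [hy]; exact hxb'
        · exact ⟨(m, ⟨0, hr⟩), b, hm.1, hb, hm.2, hy⟩
      · exact ⟨x, b, hx, hb, hxb1, hxb'⟩
    obtain ⟨m, hm1, hm2, hm3⟩ := d4_third a.1 w.1 w'.1 (Ne.symm hw) (Ne.symm hw') hww
    obtain ⟨d, hdm⟩ : ∃ d : Fin 4 × Fin r, d.1 = m := ⟨(m, ⟨0, hr⟩), rfl⟩
    rw [← hdm] at hm1 hm2 hm3
    by_cases hdd : L d = L w
    · exact d4_key hd2 h0 h1 h2 H1 HX haa hdis hw' hw hm1 (Ne.symm hww) hm3 hm2 (Ne.symm hne)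
        (by rw [hdd]; exact hne)
    · exact d4_key hd2 h0 h1 h2 H1 HX haa hdis hw hw' hm1 hww hm2 hm3 hne hdd
  · push Not at hc2
    have meet : ∀ v w : Fin 4 × Fin r, ∃ z : E4, z ≠ 0 ∧ z ∈ L v ∧ z ∈ L w := by
      intro v w
      by_cases hvw : v.1 = w.1
      · obtain ⟨z, hz, hz0⟩ := Submodule.exists_mem_ne_zero_of_ne_bot (hc2 v w hvw.symm)
        exact ⟨z, hz0, hz.1, hz.2⟩
      · exact ⟨u v w, h0 _ _, h1 _ _ hvw, h2 _ _ hvw⟩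
    obtain ⟨b, -⟩ : ∃ b : Fin 4 × Fin r, True := ⟨(0, ⟨0, hr⟩), trivial⟩
    obtain ⟨x, -, hxb⟩ := d4_out h1 h2 H1 0 (L b) ((hd b).trans (by norm_num))
    have hxb' : L x ≠ L b := fun h => hxb h.le
    obtain ⟨q, hq0, hqx, hqb⟩ := meet x b
    have hW3 := d4_sup (hd x) (hd b) hq0 hqx hqb
    obtain ⟨c, -, hcW⟩ := d4_out h1 h2 H1 0 _ hW3
    have fct : ∀ y, q ∈ L y ∨ L y ≤ L x ⊔ L b := by
      intro y
      obtain ⟨z, hz0, hz1, hz2⟩ := meet y x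
      obtain ⟨z', hz0', hz1', hz2'⟩ := meet y b
      exact d4_fact (hd x) (hd b) (hd y) hxb' hqx hqb hz0 hz1 hz2 hz0' hz1' hz2'
    have hqc : q ∈ L c := (fct c).resolve_right hcW
    refine ⟨q, hq0, fun v => ?_⟩
    rcases fct v with h | h
    · exact h
    · obtain ⟨z, hz0, hz1, hz2⟩ := meet c v
      exact d4_T3 (hd c) hcW hqc hz1 (Submodule.mem_sup_left hqx) (h hz2) hz0 hz2

end common

/-! ### Counting -/

theorem d4_col (r : ℕ) (c : Fin 4 → Fin 4 → ℝ) :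
    (∑ v : Fin 4 × Fin r, ∑ w : Fin 4 × Fin r, c v.1 w.1) = (r : ℝ) ^ 2 * ∑ i, ∑ j, c i j := by
  simp only [Fintype.sum_prod_type, Finset.sum_const, Finset.card_univ, Fintype.card_fin,
    nsmul_eq_mul]
  rw [Finset.mul_sum]
  refine Finset.sum_congr rfl fun i _ => ?_
  rw [← Finset.mul_sum, ← mul_assoc, sq]

theorem d4_tot (r : ℕ) :
    (∑ v : Fin 4 × Fin r, ∑ w : Fin 4 × Fin r, if v.1 = w.1 then (0 : ℝ) else 1) = 12 * r ^ 2 := by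
  rw [d4_col r (fun i j => if i = j then (0 : ℝ) else 1)]
  simp [Fin.sum_univ_four]
  ring

theorem d4_col1 (r : ℕ) (c : Fin 4 → ℝ) :
    (∑ w : Fin 4 × Fin r, c w.1) = (r : ℝ) * ∑ i, c i := by
  simp only [Fintype.sum_prod_type, Finset.sum_const, Finset.card_univ, Fintype.card_fin,
    nsmul_eq_mul]
  rw [← Finset.mul_sum]

theorem d4_row (r : ℕ) (v : Fin 4 × Fin r) :
    (∑ w : Fin 4 × Fin r, if v.1 = w.1 then (0 : ℝ) else 1) = 3 * r := by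
  rw [d4_col1 r (fun j => if v.1 = j then (0 : ℝ) else 1), mul_comm]
  congr 1
  generalize v.1 = i
  fin_cases i <;> simp [Fin.sum_univ_four] <;> norm_num

theorem d4_two : ∀ t t' : Fin 4, t ≠ t' →
    (∑ i : Fin 4, ∑ j : Fin 4, if i ≠ j ∧ ¬ (i = t ∨ i = t') ∧ ¬ (j = t ∨ j = t') then 1 else 0) =
      2 := by decide

theorem d4_N {r : ℕ} {u : Fin 4 × Fin r → Fin 4 × Fin r → E4} (hu : Iso4 r u)
    (W : Submodule ℝ E4) [∀ v w, Decidable (v.1 ≠ w.1 ∧ u v w ∈ W)] :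
    (∑ v, ∑ w, if v.1 ≠ w.1 ∧ u v w ∈ W then (1 : ℝ) else 0) ≤
      312 / 100 * (finrank ℝ W : ℝ) * r ^ 2 := by
  have iso : ∀ ν : E4, ‖ν‖ = 1 →
      (∑ v, ∑ w, if v.1 = w.1 then (0 : ℝ) else (inner ℝ ν (u v w)) ^ 2) ≤
        312 / 100 * (r : ℝ) ^ 2 := by
    intro ν hν
    have := (abs_le.1 (hu.2.2 ν hν)).2
    linarith
  obtain ⟨e, he1, he⟩ : ∃ e : Fin (finrank ℝ W) → E4, (∀ i, ‖e i‖ = 1) ∧
      ∀ z ∈ W, ∑ i, (inner ℝ (e i) z) ^ 2 = ‖z‖ ^ 2 := by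
    let b := stdOrthonormalBasis ℝ W
    refine ⟨fun i => (b i : E4), fun i => ?_, fun z hz => ?_⟩
    · have := b.norm_eq_one i
      exact this
    · have := b.sum_sq_norm_inner_right ⟨z, hz⟩
      rw [Submodule.coe_norm] at this
      rw [← this]
      refine Finset.sum_congr rfl fun i _ => ?_
      rw [Real.norm_eq_abs, sq_abs]
      rfl
  calc (∑ v, ∑ w, if v.1 ≠ w.1 ∧ u v w ∈ W then (1 : ℝ) else 0)
      ≤ ∑ v, ∑ w, ∑ i, if v.1 = w.1 then (0 : ℝ) else (inner ℝ (e i) (u v w)) ^ 2 := by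
        refine Finset.sum_le_sum fun v _ => Finset.sum_le_sum fun w _ => ?_
        by_cases hvw : v.1 = w.1
        · rw [if_neg (fun h => h.1 hvw)]
          exact Finset.sum_nonneg fun i _ => by rw [if_pos hvw]
        · simp only [if_neg hvw]
          split_ifs with h
          · rw [he _ h.2, hu.1, one_pow]
          · exact Finset.sum_nonneg fun i _ => sq_nonneg _
    _ = ∑ i, ∑ v, ∑ w, if v.1 = w.1 then (0 : ℝ) else (inner ℝ (e i) (u v w)) ^ 2 := by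
        rw [Finset.sum_comm]
        rw [Finset.sum_congr rfl fun v _ => Finset.sum_comm]
        rw [Finset.sum_comm]
        rw [Finset.sum_congr rfl fun v _ => Finset.sum_comm]
    _ ≤ ∑ _i : Fin (finrank ℝ W), 312 / 100 * (r : ℝ) ^ 2 :=
        Finset.sum_le_sum fun i _ => iso _ (he1 i)
    _ = 312 / 100 * (finrank ℝ W : ℝ) * r ^ 2 := by
        rw [Finset.sum_const, Finset.card_univ, Fintype.card_fin, nsmul_eq_mul]
        ring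

/-- [D4] -/
theorem row_rank (r : ℕ) (hr : 1 ≤ r) (u : Fin 4 × Fin r → Fin 4 × Fin r → E4) (hu : Iso4 r u) :
    ∃ v w₁ w₂ w₃ : Fin 4 × Fin r, v.1 ≠ w₁.1 ∧ v.1 ≠ w₂.1 ∧ v.1 ≠ w₃.1 ∧
      LinearIndependent ℝ ![u v w₁, u v w₂, u v w₃] := by
  classical
  by_contra hcon
  push Not at hcon
  obtain ⟨L, hL⟩ : ∃ L : Fin 4 × Fin r → Submodule ℝ E4,
      ∀ v, L v = Submodule.span ℝ (u v '' {w | v.1 ≠ w.1}) := ⟨_, fun _ => rfl⟩
  have hr1 : (1 : ℝ) ≤ r := by exact_mod_cast hr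
  have hr0 : (0 : ℝ) < (r : ℝ) ^ 2 := by positivity
  have hd : ∀ v, finrank ℝ (L v) ≤ 2 := by
    intro v
    rw [hL]
    by_contra hc
    push Not at hc
    obtain ⟨f, hf, _, hli⟩ := Submodule.exists_fun_fin_finrank_span_eq ℝ (u v '' {w | v.1 ≠ w.1})
    have hc' : 3 ≤ finrank ℝ (Submodule.span ℝ (u v '' {w | v.1 ≠ w.1})) := hc
    have h1 : LinearIndependent ℝ (f ∘ Fin.castLE hc') := hli.comp _ (Fin.castLE_injective hc')
    obtain ⟨b, hb0, hb⟩ := hf (Fin.castLE hc' 0)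
    obtain ⟨c, hc0, hc1⟩ := hf (Fin.castLE hc' 1)
    obtain ⟨d, hd0, hd⟩ := hf (Fin.castLE hc' 2)
    refine hcon v b c d hb0 hc0 hd0 ?_
    have h2 : ![u v b, u v c, u v d] = f ∘ Fin.castLE hc' := by
      funext i
      fin_cases i
      · exact hb
      · exact hc1
      · exact hd
    rw [h2]
    exact h1
  have h1 : ∀ v w, v.1 ≠ w.1 → u v w ∈ L v := fun v w hvw => by
    rw [hL]
    exact Submodule.subset_span ⟨w, hvw, rfl⟩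
  have h2 : ∀ v w, v.1 ≠ w.1 → u v w ∈ L w := fun v w hvw => by
    rw [hu.2.1 v w]
    exact h1 w v (Ne.symm hvw)
  have h0 : ∀ v w, u v w ≠ 0 := fun v w h => by
    have := hu.1 v w
    rw [h, norm_zero] at this
    exact zero_ne_one this
  have H1 : ∀ W : Submodule ℝ E4, finrank ℝ W ≤ 3 → ∃ v w, v.1 ≠ w.1 ∧ u v w ∉ W := by
    intro W hW
    by_contra hall
    push Not at hall
    have e1 := d4_N hu W
    have e2 : (∑ v : Fin 4 × Fin r, ∑ w : Fin 4 × Fin r, if v.1 = w.1 then (0 : ℝ) else 1) ≤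
        ∑ v, ∑ w, if v.1 ≠ w.1 ∧ u v w ∈ W then (1 : ℝ) else 0 := by
      refine Finset.sum_le_sum fun v _ => Finset.sum_le_sum fun w _ => ?_
      by_cases hvw : v.1 = w.1
      · rw [if_pos hvw]
        split_ifs <;> norm_num
      · rw [if_neg hvw, if_pos ⟨hvw, hall v w hvw⟩]
    rw [d4_tot] at e2
    have e3 : (finrank ℝ W : ℝ) ≤ 3 := by exact_mod_cast hW
    have e4 : (finrank ℝ W : ℝ) * (r : ℝ) ^ 2 ≤ 3 * (r : ℝ) ^ 2 :=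
      mul_le_mul_of_nonneg_right e3 hr0.le
    nlinarith
  have HX : ∀ W : Submodule ℝ E4, finrank ℝ W ≤ 2 → ∀ t t' : Fin 4, t ≠ t' →
      ¬ ∀ v : Fin 4 × Fin r, (v.1 = t ∨ v.1 = t') → L v = W := by
    intro W hW t t' htt hall
    have e1 := d4_N hu W
    have e2 : (∑ v : Fin 4 × Fin r, ∑ w : Fin 4 × Fin r, if v.1 = w.1 then (0 : ℝ) else 1) ≤
        (∑ v, ∑ w, if v.1 ≠ w.1 ∧ u v w ∈ W then (1 : ℝ) else 0) +
        ∑ v : Fin 4 × Fin r, ∑ w : Fin 4 × Fin r,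
          if v.1 ≠ w.1 ∧ ¬ (v.1 = t ∨ v.1 = t') ∧ ¬ (w.1 = t ∨ w.1 = t') then (1 : ℝ) else 0 := by
      rw [← Finset.sum_add_distrib]
      refine Finset.sum_le_sum fun v _ => ?_
      rw [← Finset.sum_add_distrib]
      refine Finset.sum_le_sum fun w _ => ?_
      by_cases hvw : v.1 = w.1
      · rw [if_pos hvw]
        split_ifs <;> norm_num
      · rw [if_neg hvw]
        by_cases hv : v.1 = t ∨ v.1 = t'
        · rw [if_pos ⟨hvw, by rw [← hall v hv]; exact h1 v w hvw⟩]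
          split_ifs <;> norm_num
        · by_cases hw : w.1 = t ∨ w.1 = t'
          · rw [if_pos ⟨hvw, by rw [← hall w hw]; exact h2 v w hvw⟩]
            split_ifs <;> norm_num
          · rw [if_pos (⟨hvw, hv, hw⟩ : v.1 ≠ w.1 ∧ ¬ (v.1 = t ∨ v.1 = t') ∧
              ¬ (w.1 = t ∨ w.1 = t'))]
            split_ifs <;> norm_num
    rw [d4_tot, d4_col r (fun i j => if i ≠ j ∧ ¬ (i = t ∨ i = t') ∧ ¬ (j = t ∨ j = t')
      then (1 : ℝ) else 0)] at e2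
    have e5 : (∑ i : Fin 4, ∑ j : Fin 4,
        if i ≠ j ∧ ¬ (i = t ∨ i = t') ∧ ¬ (j = t ∨ j = t') then (1 : ℝ) else 0) = 2 := by
      have := congrArg (Nat.cast (R := ℝ)) (d4_two t t' htt)
      push_cast at this
      convert this using 6
    rw [e5] at e2
    have e3 : (finrank ℝ W : ℝ) ≤ 2 := by exact_mod_cast hW
    have e4 : (finrank ℝ W : ℝ) * (r : ℝ) ^ 2 ≤ 2 * (r : ℝ) ^ 2 :=
      mul_le_mul_of_nonneg_right e3 hr0.le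
    nlinarith
  obtain ⟨q, hq0, hq⟩ := d4_common hr hd h0 h1 h2 H1 HX
  have hqu : ∀ v w, v.1 ≠ w.1 → L v ≠ L w → u v w ∈ Submodule.span ℝ {q} := by
    intro v w hvw hne
    have hqs : q ∈ Submodule.span ℝ {q} := Submodule.mem_span_singleton_self q
    by_cases h12 : L v ≤ L w
    · have h21 : ¬ L w ≤ L v := fun h => hne (le_antisymm h12 h)
      exact d4_T3 (hd w) h21 (h2 v w hvw) (hq w) (h1 v w hvw) (hq v) hq0 hqs
    · exact d4_T3 (hd v) h12 (h1 v w hvw) (hq v) (h2 v w hvw) (hq w) hq0 hqs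
  -- pigeonhole
  obtain ⟨v₀, hv₀⟩ : ∃ v₀ : Fin 4 × Fin r,
      (∑ w : Fin 4 × Fin r, if v₀.1 ≠ w.1 ∧ L v₀ ≠ L w then (1 : ℝ) else 0) ≤
        78 / 100 * (r : ℝ) := by
    by_contra hlt
    push Not at hlt
    have e1 : ∑ _v : Fin 4 × Fin r, 78 / 100 * (r : ℝ) < ∑ v : Fin 4 × Fin r,
        ∑ w : Fin 4 × Fin r, if v.1 ≠ w.1 ∧ L v ≠ L w then (1 : ℝ) else 0 :=
      Finset.sum_lt_sum_of_nonempty ⟨((0 : Fin 4), ⟨0, hr⟩), Finset.mem_univ _⟩ fun v _ => hlt v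
    rw [Finset.sum_const, Finset.card_univ, Fintype.card_prod, Fintype.card_fin, Fintype.card_fin,
      nsmul_eq_mul] at e1
    have e2 : (∑ v : Fin 4 × Fin r, ∑ w : Fin 4 × Fin r,
        if v.1 ≠ w.1 ∧ L v ≠ L w then (1 : ℝ) else 0) ≤
        ∑ v, ∑ w, if v.1 ≠ w.1 ∧ u v w ∈ Submodule.span ℝ {q} then (1 : ℝ) else 0 := by
      refine Finset.sum_le_sum fun v _ => Finset.sum_le_sum fun w _ => ?_
      by_cases h : v.1 ≠ w.1 ∧ L v ≠ L w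
      · rw [if_pos h, if_pos ⟨h.1, hqu v w h.1 h.2⟩]
      · rw [if_neg h]
        split_ifs <;> norm_num
    have e3 := d4_N hu (Submodule.span ℝ {q})
    rw [finrank_span_singleton hq0] at e3
    push_cast at e1 e3
    nlinarith
  have e1 := d4_N hu (L v₀)
  have e2 : (∑ v : Fin 4 × Fin r, ∑ w : Fin 4 × Fin r, if v.1 = w.1 then (0 : ℝ) else 1) ≤
      (∑ v, ∑ w, if v.1 ≠ w.1 ∧ u v w ∈ L v₀ then (1 : ℝ) else 0) +
      ((∑ v : Fin 4 × Fin r, ∑ w : Fin 4 × Fin r,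
        (if v₀.1 ≠ v.1 ∧ L v₀ ≠ L v then (1 : ℝ) else 0) * (if v.1 = w.1 then (0 : ℝ) else 1)) +
      ∑ v : Fin 4 × Fin r, ∑ w : Fin 4 × Fin r,
        (if v₀.1 ≠ w.1 ∧ L v₀ ≠ L w then (1 : ℝ) else 0) * (if w.1 = v.1 then (0 : ℝ) else 1)) := by
    rw [← Finset.sum_add_distrib, ← Finset.sum_add_distrib]
    refine Finset.sum_le_sum fun v _ => ?_
    rw [← Finset.sum_add_distrib, ← Finset.sum_add_distrib]
    refine Finset.sum_le_sum fun w _ => ?_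
    have p1 : (0 : ℝ) ≤ if v.1 ≠ w.1 ∧ u v w ∈ L v₀ then (1 : ℝ) else 0 := by
      split_ifs <;> norm_num
    have p2 : (0 : ℝ) ≤ if v₀.1 ≠ v.1 ∧ L v₀ ≠ L v then (1 : ℝ) else 0 := by
      split_ifs <;> norm_num
    have p3 : (0 : ℝ) ≤ if v₀.1 ≠ w.1 ∧ L v₀ ≠ L w then (1 : ℝ) else 0 := by
      split_ifs <;> norm_num
    by_cases hvw : v.1 = w.1
    · rw [if_pos hvw, if_pos hvw.symm]
      linarith
    · rw [if_neg hvw, if_neg (Ne.symm hvw), mul_one, mul_one]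
      by_cases hm : u v w ∈ L v₀
      · rw [if_pos (⟨hvw, hm⟩ : v.1 ≠ w.1 ∧ u v w ∈ L v₀)]
        linarith
      · have n1 : L v₀ ≠ L v := fun h => hm (h ▸ h1 v w hvw)
        have n2 : L v₀ ≠ L w := fun h => hm (h ▸ h2 v w hvw)
        by_cases hc : v₀.1 = v.1
        · have hc' : v₀.1 ≠ w.1 := fun h => hvw (hc.symm.trans h)
          rw [if_pos (⟨hc', n2⟩ : v₀.1 ≠ w.1 ∧ L v₀ ≠ L w)]
          linarith
        · rw [if_pos (⟨hc, n1⟩ : v₀.1 ≠ v.1 ∧ L v₀ ≠ L v)]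
          linarith
  have e3 : (∑ v : Fin 4 × Fin r, ∑ w : Fin 4 × Fin r,
      (if v₀.1 ≠ v.1 ∧ L v₀ ≠ L v then (1 : ℝ) else 0) * (if v.1 = w.1 then (0 : ℝ) else 1)) =
      (∑ w : Fin 4 × Fin r, if v₀.1 ≠ w.1 ∧ L v₀ ≠ L w then (1 : ℝ) else 0) * (3 * r) := by
    rw [Finset.sum_mul]
    refine Finset.sum_congr rfl fun v _ => ?_
    rw [← Finset.mul_sum, d4_row]
  have e4 : (∑ v : Fin 4 × Fin r, ∑ w : Fin 4 × Fin r,
      (if v₀.1 ≠ w.1 ∧ L v₀ ≠ L w then (1 : ℝ) else 0) * (if w.1 = v.1 then (0 : ℝ) else 1)) =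
      (∑ w : Fin 4 × Fin r, if v₀.1 ≠ w.1 ∧ L v₀ ≠ L w then (1 : ℝ) else 0) * (3 * r) := by
    rw [Finset.sum_comm]
    exact e3
  rw [d4_tot, e3, e4] at e2
  have e5 : (finrank ℝ (L v₀) : ℝ) ≤ 2 := by exact_mod_cast hd v₀
  have e6 : (finrank ℝ (L v₀) : ℝ) * (r : ℝ) ^ 2 ≤ 2 * (r : ℝ) ^ 2 :=
    mul_le_mul_of_nonneg_right e5 hr0.le
  have e7 : (∑ w : Fin 4 × Fin r, if v₀.1 ≠ w.1 ∧ L v₀ ≠ L w then (1 : ℝ) else 0) * (3 * r) ≤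
      78 / 100 * (r : ℝ) * (3 * r) := mul_le_mul_of_nonneg_right hv₀ (by positivity)
  nlinarith

end

end Pool.Agent.LPC
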