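import Pool.Agent.LPI.Defs

/-! Four-colour robust version: common definitions (lift, unit, E3, E4 are those of `LPI.Defs`). -/

namespace Pool.Agent.LPC

open Pool.Agent.LPI
open scoped BigOperators

noncomputable section

/-- Number of the sets `A i` met by the line `{x + t d}`. -/
def met {ι : Type} (A : ι → Set E3) (x d : E3) : ℕ :=
  Nat.card {i : ι // ∃ t : ℝ, x + t • d ∈ A i}

/-- Four-coloured array of unit vectors, vertices `(s, a)`, `s : Fin 4` the colour; only the entries
with two different colours count; they are isotropic up to `1/100`. -/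
def Iso4 (r : ℕ) (u : Fin 4 × Fin r → Fin 4 × Fin r → E4) : Prop :=
  (∀ v w, ‖u v w‖ = 1) ∧ (∀ v w, u v w = u w v) ∧
    ∀ ν : E4, ‖ν‖ = 1 →
      |(∑ v, ∑ w, if v.1 = w.1 then (0 : ℝ) else (inner ℝ ν (u v w)) ^ 2) - (12 * r ^ 2 : ℝ) / 4|
        ≤ (12 * r ^ 2 : ℝ) / 100

end

end Pool.Agent.LPC
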