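import Pool.Agent.LPC.Defs

/-!
[P4] Few of the points `p v w` (`v`, `w` of different colours) are in a plane unless a line meets
many of the sets of one colour.
-/

set_option autoImplicit false

namespace Pool.Agent.LPC

open Finset Pool.Agent.LPI

/-- An orthonormal basis of `ℝ³` starting with a given direction. -/
theorem exists_onb (a : E3) (ha : a ≠ 0) :
    ∃ e : OrthonormalBasis (Fin 3) ℝ E3, e 0 = ‖a‖⁻¹ • a := by
  have hn : ‖a‖ ≠ 0 := norm_ne_zero_iff.2 ha
  have h1 : Orthonormal ℝ (({0} : Set (Fin 3)).domRestrict fun _ => ‖a‖⁻¹ • a) := by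
    rw [orthonormal_iff_ite]
    rintro ⟨i, hi⟩ ⟨j, hj⟩
    have hi' : i = 0 := hi
    have hj' : j = 0 := hj
    subst hi' hj'
    rw [if_pos rfl]
    change inner ℝ (‖a‖⁻¹ • a) (‖a‖⁻¹ • a) = 1
    rw [real_inner_self_eq_norm_sq, norm_smul, norm_inv, norm_norm, inv_mul_cancel₀ hn]
    norm_num
  obtain ⟨e, he⟩ := h1.exists_orthonormalBasis_extension_of_card_eq
    (by simp)
  exact ⟨e, he 0 rfl⟩

theorem plane_bound {ι : Type} [Fintype ι] (A : Fin 4 → ι → Set E3)
    (hconv : ∀ s i, Convex ℝ (A s i)) (R : Fin 4 × ι → Fin 4 × ι → Prop)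
    (p : Fin 4 × ι → Fin 4 × ι → E3)
    (hp : ∀ v w, R v w → p v w ∈ A v.1 v.2) (hR : ∀ v w, R v w → R w v)
    (hsym : ∀ v w, p v w = p w v) (e : ℝ)
    (he : (Nat.card {vw : (Fin 4 × ι) × (Fin 4 × ι) //
      vw.1.1 ≠ vw.2.1 ∧ ¬ R vw.1 vw.2} : ℝ) ≤ e * (12 * (Fintype.card ι : ℝ) ^ 2))
    (c : ℝ) (hc : ∀ s (x d : E3), d ≠ 0 → (met (A s) x d : ℝ) < c * Fintype.card ι)
    (a : E3) (ha : a ≠ 0) (b : ℝ) :
    (Nat.card {vw : (Fin 4 × ι) × (Fin 4 × ι) // vw.1.1 ≠ vw.2.1 ∧ inner ℝ a (p vw.1 vw.2) = b} : ℝ)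
      ≤ (2 * c + e) * (12 * (Fintype.card ι : ℝ) ^ 2) := by
  classical
  obtain ⟨g, hg⟩ := exists_onb a ha
  have hn0 : ‖a‖ ≠ 0 := norm_ne_zero_iff.2 ha
  obtain ⟨t, ht⟩ : ∃ t : Fin 4 × ι → Fin 4 × ι → ℝ, ∀ i j, t i j = inner ℝ (g 1) (p i j) :=
    ⟨_, fun _ _ => rfl⟩
  obtain ⟨G, hG⟩ : ∃ G : Fin 4 × ι → Fin 4 × ι → Prop, ∀ i j, G i j ↔
      i.1 ≠ j.1 ∧ R i j ∧ inner ℝ a (p i j) = b :=
    ⟨fun i j => i.1 ≠ j.1 ∧ R i j ∧ inner ℝ a (p i j) = b, fun _ _ => Iff.rfl⟩
  have hGs : ∀ i j, G i j → G j i := fun i j h => by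
    rw [hG] at h ⊢
    exact ⟨h.1.symm, hR _ _ h.2.1, by rw [hsym j i]; exact h.2.2⟩
  have hts : ∀ i j, t i j = t j i := fun i j => by rw [ht, ht, hsym]
  have hmin : ∀ i, ∃ j0, (∃ j, G i j) → G i j0 ∧ ∀ j, G i j → t i j0 ≤ t i j := by
    intro i
    by_cases h : ∃ j, G i j
    · obtain ⟨j, hj⟩ := h
      obtain ⟨j0, h0, h1⟩ := Finset.exists_min_image (univ.filter fun j => G i j) (t i)
        ⟨j, by simpa using hj⟩
      exact ⟨j0, fun _ => ⟨by simpa using h0, fun j hj => h1 j (by simpa using hj)⟩⟩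
    · exact ⟨i, fun h' => absurd h' h⟩
  choose j0 hj0 using hmin
  obtain ⟨S, hS⟩ : ∃ S : Fin 4 × ι → Finset (Fin 4 × ι), ∀ i j, j ∈ S i ↔
      i.1 ≠ j.1 ∧ (∃ k, G i k) ∧
      ∃ j1 j2, G j j1 ∧ G j j2 ∧ t j j1 ≤ t i (j0 i) ∧ t i (j0 i) ≤ t j j2 :=
    ⟨fun i => univ.filter fun j => i.1 ≠ j.1 ∧ (∃ k, G i k) ∧
      ∃ j1 j2, G j j1 ∧ G j j2 ∧ t j j1 ≤ t i (j0 i) ∧ t i (j0 i) ≤ t j j2, fun i j => by simp⟩
  have he2 : g 2 ≠ 0 := g.orthonormal.ne_zero 2
  set n : ℝ := (Fintype.card ι : ℝ) with hn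
  -- each `S i` is hit by a line
  have hSc : ∀ i, ((S i).card : ℝ) ≤ 3 * (c * n) := by
    intro i
    by_cases hi : ∃ k, G i k
    · have h0 := (hj0 i hi).1
      have hsub : ∀ j ∈ S i, ∃ s : ℝ, p i (j0 i) + s • g 2 ∈ A j.1 j.2 := by
        intro j hj
        obtain ⟨-, -, j1, j2, h1, h2, h3, h4⟩ := (hS i j).1 hj
        obtain ⟨α, β, hα, hβ, hαβ, hval⟩ : ∃ α β : ℝ, 0 ≤ α ∧ 0 ≤ β ∧ α + β = 1 ∧
            α * t j j1 + β * t j j2 = t i (j0 i) := by
          have hm : t i (j0 i) ∈ Set.Icc (t j j1) (t j j2) := ⟨h3, h4⟩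
          rw [← segment_eq_Icc (h3.trans h4)] at hm
          obtain ⟨α, β, h5, h6, h7, h8⟩ := hm
          exact ⟨α, β, h5, h6, h7, by simpa using h8⟩
        have h1' := (hG _ _).1 h1
        have h2' := (hG _ _).1 h2
        have h0' := (hG _ _).1 h0
        have hy : α • p j j1 + β • p j j2 ∈ A j.1 j.2 :=
          hconv j.1 j.2 (hp j j1 h1'.2.1) (hp j j2 h2'.2.1) hα hβ hαβ
        refine ⟨inner ℝ (g 2) (α • p j j1 + β • p j j2 - p i (j0 i)), ?_⟩
        have e0 : inner ℝ (g 0) (α • p j j1 + β • p j j2 - p i (j0 i)) = 0 := by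
          rw [hg, real_inner_smul_left, inner_sub_right, inner_add_right, real_inner_smul_right,
            real_inner_smul_right, h1'.2.2, h2'.2.2, h0'.2.2, ← add_mul, hαβ]
          ring
        have e1 : inner ℝ (g 1) (α • p j j1 + β • p j j2 - p i (j0 i)) = 0 := by
          rw [inner_sub_right, inner_add_right, real_inner_smul_right,
            real_inner_smul_right, ← ht, ← ht, ← ht, hval]
          ring
        have hrep := g.sum_repr' (α • p j j1 + β • p j j2 - p i (j0 i))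
        rw [Fin.sum_univ_three, e0, e1, zero_smul, zero_smul, zero_add, zero_add] at hrep
        rw [hrep]
        simpa using hy
      have hcol : ∀ s : Fin 4, (((S i).filter fun j => j.1 = s).card : ℝ) ≤ c * n := by
        intro s
        refine le_trans ?_ (hc s (p i (j0 i)) (g 2) he2).le
        unfold met
        rw [Nat.card_eq_fintype_card, Fintype.card_subtype]
        have h5 : ((S i).filter fun j => j.1 = s) ⊆
            (univ.filter fun k : ι => ∃ t : ℝ, p i (j0 i) + t • g 2 ∈ A s k).map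
              ⟨fun k => (s, k), fun k l h => (Prod.mk.inj h).2⟩ := by
          intro j hj
          rw [mem_filter] at hj
          rw [mem_map]
          refine ⟨j.2, ?_, ?_⟩
          · have h6 := hsub j hj.1
            rw [hj.2] at h6
            simpa using h6
          · simp only [Function.Embedding.coeFn_mk]
            rw [← hj.2]
        have h6 := card_le_card h5
        rw [card_map] at h6
        exact_mod_cast h6
      have hcard : (S i).card = ∑ s ∈ (univ : Finset (Fin 4)).erase i.1,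
          ((S i).filter fun j => j.1 = s).card := by
        refine Finset.card_eq_sum_card_fiberwise (f := fun j : Fin 4 × ι => j.1) ?_
        intro j hj
        have h7 := ((hS i j).1 (by simpa using hj)).1
        simpa using h7.symm
      rw [hcard]
      push_cast
      calc ∑ s ∈ (univ : Finset (Fin 4)).erase i.1, (((S i).filter fun j => j.1 = s).card : ℝ)
          ≤ ∑ _s ∈ (univ : Finset (Fin 4)).erase i.1, c * n := sum_le_sum fun s _ => hcol s
        _ = 3 * (c * n) := by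
            rw [sum_const, nsmul_eq_mul, card_erase_of_mem (mem_univ _), card_univ,
              Fintype.card_fin]
            norm_num
    · have : S i = ∅ := by
        ext j
        simp only [notMem_empty, iff_false]
        intro hj
        exact hi ((hS i j).1 hj).2.1
      rw [this]
      have h8 := hc 0 0 (g 2) he2
      have h9 : (0 : ℝ) ≤ (met (A 0) 0 (g 2) : ℝ) := Nat.cast_nonneg _
      simp only [card_empty, Nat.cast_zero]
      linarith
  have hcov : ∀ i j, G i j → j ∈ S i ∨ i ∈ S j := by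
    intro i j hij
    have hji := hGs i j hij
    have hi := hj0 i ⟨j, hij⟩
    have hj := hj0 j ⟨i, hji⟩
    have hne := ((hG _ _).1 hij).1
    rcases le_total (t j (j0 j)) (t i (j0 i)) with h | h
    · left
      refine (hS i j).2 ⟨hne, ⟨j, hij⟩, j0 j, i, hj.1, hji, h, ?_⟩
      rw [← hts i j]
      exact hi.2 j hij
    · right
      refine (hS j i).2 ⟨hne.symm, ⟨i, hji⟩, j0 i, j, hi.1, hij, h, ?_⟩
      rw [hts i j]
      exact hj.2 i hji
  have hcard : (Nat.card {vw : (Fin 4 × ι) × (Fin 4 × ι) //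
      vw.1.1 ≠ vw.2.1 ∧ inner ℝ a (p vw.1 vw.2) = b}) ≤
      (∑ i, (S i).card + ∑ i, (S i).card) + Nat.card {vw : (Fin 4 × ι) × (Fin 4 × ι) //
      vw.1.1 ≠ vw.2.1 ∧ ¬ R vw.1 vw.2} := by
    rw [Nat.card_eq_fintype_card, Fintype.card_subtype, Nat.card_eq_fintype_card,
      Fintype.card_subtype]
    have h1 : (univ.filter fun vw : (Fin 4 × ι) × (Fin 4 × ι) =>
        vw.1.1 ≠ vw.2.1 ∧ inner ℝ a (p vw.1 vw.2) = b) ⊆
        ((univ.filter fun ij : (Fin 4 × ι) × (Fin 4 × ι) => ij.2 ∈ S ij.1) ∪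
          (univ.filter fun ij : (Fin 4 × ι) × (Fin 4 × ι) => ij.1 ∈ S ij.2)) ∪
        (univ.filter fun vw : (Fin 4 × ι) × (Fin 4 × ι) => vw.1.1 ≠ vw.2.1 ∧ ¬ R vw.1 vw.2) := by
      intro ij hij
      rw [mem_filter] at hij
      rw [mem_union, mem_union, mem_filter, mem_filter, mem_filter]
      by_cases hRij : R ij.1 ij.2
      · left
        have := hcov ij.1 ij.2 ((hG _ _).2 ⟨hij.2.1, hRij, hij.2.2⟩)
        simpa using this
      · right
        exact ⟨mem_univ _, hij.2.1, hRij⟩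
    refine (card_le_card h1).trans ((card_union_le _ _).trans ?_)
    refine Nat.add_le_add_right ((card_union_le _ _).trans (le_of_eq ?_)) _
    congr 1
    · rw [card_filter, Fintype.sum_prod_type]
      refine sum_congr rfl fun i _ => ?_
      simp
    · rw [card_filter, Fintype.sum_prod_type_right]
      refine sum_congr rfl fun i _ => ?_
      simp
  have hsum : ((∑ i, (S i).card : ℕ) : ℝ) ≤ 12 * (c * n ^ 2) := by
    push_cast
    calc ∑ i, ((S i).card : ℝ) ≤ ∑ _i : Fin 4 × ι, 3 * (c * n) := sum_le_sum fun i _ => hSc i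
      _ = 12 * (c * n ^ 2) := by
        rw [sum_const, nsmul_eq_mul, card_univ, Fintype.card_prod, Fintype.card_fin]
        push_cast
        rw [← hn]
        ring
  have hcard' : (Nat.card {vw : (Fin 4 × ι) × (Fin 4 × ι) //
      vw.1.1 ≠ vw.2.1 ∧ inner ℝ a (p vw.1 vw.2) = b} : ℝ) ≤
      (((∑ i, (S i).card : ℕ) : ℝ) + ((∑ i, (S i).card : ℕ) : ℝ)) +
      (Nat.card {vw : (Fin 4 × ι) × (Fin 4 × ι) // vw.1.1 ≠ vw.2.1 ∧ ¬ R vw.1 vw.2} : ℝ) := by
    exact_mod_cast hcard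
  calc _ ≤ _ := hcard'
    _ ≤ (12 * (c * n ^ 2) + 12 * (c * n ^ 2)) + e * (12 * n ^ 2) :=
        add_le_add (add_le_add hsum hsum) he
    _ = (2 * c + e) * (12 * n ^ 2) := by ring

end Pool.Agent.LPC
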