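import Pool.Agent.LPC.Defs

/-! Row S4: sampling, four colours. -/

namespace Pool.Agent.LPC.S

open Pool.Agent.LPI Pool.Agent.LPC
open scoped BigOperators

noncomputable section

section gen

variable {K ι : Type} [Fintype K] [DecidableEq K] [Fintype ι] [Nonempty ι]

/-- resampling one coordinate -/
def swp (a : K) : ((K → ι) × ι) ≃ ((K → ι) × ι) where
  toFun z := (Function.update z.1 a z.2, z.1 a)
  invFun z := (Function.update z.1 a z.2, z.1 a)
  left_inv z := by
    ext1 <;> simp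
  right_inv z := by
    ext1 <;> simp

lemma resample (a : K) (F : (K → ι) → ℝ) :
    ∑ f : K → ι, ∑ i : ι, F (Function.update f a i) = (Fintype.card ι : ℝ) * ∑ f : K → ι, F f := by
  have h1 : ∑ f : K → ι, ∑ i : ι, F (Function.update f a i)
      = ∑ z : (K → ι) × ι, F ((swp a z).1) := by
    rw [Fintype.sum_prod_type]
    rfl
  rw [h1, Equiv.sum_comp (swp a) (fun z => F z.1), Fintype.sum_prod_type]
  simp only [Finset.sum_const, Finset.card_univ, nsmul_eq_mul]
  rw [Finset.mul_sum]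

lemma zero_of_distinct (g : ι → ι → ℝ) (hg : ∑ i, ∑ j, g i j = 0)
    (a b c d : K) (hab : a ≠ b) (hac : a ≠ c) (had : a ≠ d) (hbc : b ≠ c) (hbd : b ≠ d) :
    ∑ f : K → ι, g (f a) (f b) * g (f c) (f d) = 0 := by
  have h1 := resample b (fun f : K → ι => g (f a) (f b) * g (f c) (f d))
  have h2 := resample a (fun f : K → ι =>
    ∑ i : ι, (g ((Function.update f b i) a) ((Function.update f b i) b)
      * g ((Function.update f b i) c) ((Function.update f b i) d)))
  have h3 : ∑ f : K → ι, ∑ k : ι,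
      ∑ i : ι, (g ((Function.update (Function.update f a k) b i) a)
        ((Function.update (Function.update f a k) b i) b)
      * g ((Function.update (Function.update f a k) b i) c)
        ((Function.update (Function.update f a k) b i) d)) = 0 := by
    apply Finset.sum_eq_zero
    intro f _
    have : ∀ k i : ι, (g ((Function.update (Function.update f a k) b i) a)
        ((Function.update (Function.update f a k) b i) b)
      * g ((Function.update (Function.update f a k) b i) c)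
        ((Function.update (Function.update f a k) b i) d)) = g k i * g (f c) (f d) := by
      intro k i
      rw [Function.update_self, Function.update_of_ne hab, Function.update_self,
        Function.update_of_ne hbc.symm, Function.update_of_ne hac.symm,
        Function.update_of_ne hbd.symm, Function.update_of_ne had.symm]
    simp only [this]
    simp only [← Finset.sum_mul]
    rw [hg, zero_mul]
  rw [h3] at h2
  have hn' : (Fintype.card ι : ℝ) ≠ 0 := by
    have := Fintype.card_pos (α := ι)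
    positivity
  have h4 : ∑ f : K → ι, ∑ i : ι,
      (g ((Function.update f b i) a) ((Function.update f b i) b)
      * g ((Function.update f b i) c) ((Function.update f b i) d)) = 0 := by
    rcases mul_eq_zero.mp h2.symm with h | h
    · exact absurd h hn'
    · exact h
  rw [h4] at h1
  rcases mul_eq_zero.mp h1.symm with h | h
  · exact absurd h hn'
  · exact h

variable {r : ℕ}

/-- the cross sum -/
def X (al be : Fin r → K) (g : ι → ι → ℝ) (f : K → ι) : ℝ :=
  ∑ a, ∑ b, g (f (al a)) (f (be b))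

lemma second_moment (al be : Fin r → K) (hal : Function.Injective al)
    (hbe : Function.Injective be) (hne : ∀ a b, al a ≠ be b)
    (g : ι → ι → ℝ) (hg : ∑ i, ∑ j, g i j = 0) (hb : ∀ i j, |g i j| ≤ 2) :
    ∑ f : K → ι, (X al be g f) ^ 2
      ≤ 8 * (r : ℝ) ^ 3 * (Fintype.card ι : ℝ) ^ (Fintype.card K) := by
  set N : ℝ := (Fintype.card ι : ℝ) ^ (Fintype.card K) with hN
  have hNpos : 0 ≤ N := by rw [hN]; positivity
  have hexp : ∀ f : K → ι, (X al be g f) ^ 2
      = ∑ a : Fin r, ∑ b : Fin r, ∑ c : Fin r, ∑ d : Fin r,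
      g (f (al a)) (f (be b)) * g (f (al c)) (f (be d)) := by
    intro f
    unfold X
    rw [pow_two, Finset.sum_mul]
    apply Finset.sum_congr rfl
    intro a _
    rw [Finset.sum_mul]
    apply Finset.sum_congr rfl
    intro b _
    rw [Finset.mul_sum]
    apply Finset.sum_congr rfl
    intro c _
    rw [Finset.mul_sum]
  simp only [hexp]
  have hcomm : ∑ f : K → ι, ∑ a : Fin r, ∑ b : Fin r, ∑ c : Fin r, ∑ d : Fin r,
      g (f (al a)) (f (be b)) * g (f (al c)) (f (be d))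
      = ∑ a : Fin r, ∑ b : Fin r, ∑ c : Fin r, ∑ d : Fin r, ∑ f : K → ι,
      g (f (al a)) (f (be b)) * g (f (al c)) (f (be d)) := by
    rw [Finset.sum_comm]
    apply Finset.sum_congr rfl
    intro a _
    rw [Finset.sum_comm]
    apply Finset.sum_congr rfl
    intro b _
    rw [Finset.sum_comm]
    apply Finset.sum_congr rfl
    intro c _
    rw [Finset.sum_comm]
  rw [hcomm]
  have hterm : ∀ a b c d : Fin r, ∑ f : K → ι,
      g (f (al a)) (f (be b)) * g (f (al c)) (f (be d))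
      ≤ 4 * N * ((if a = c then (1 : ℝ) else 0) + (if b = d then (1 : ℝ) else 0)) := by
    intro a b c d
    have hpos : (0 : ℝ) ≤ 4 * N := by positivity
    have hi : ∀ (P : Prop) [Decidable P], (0 : ℝ) ≤ if P then (1 : ℝ) else 0 := by
      intro P _; split_ifs <;> norm_num
    have hrhs : (0 : ℝ) ≤ 4 * N * ((if a = c then (1 : ℝ) else 0)
        + (if b = d then (1 : ℝ) else 0)) := by
      apply mul_nonneg hpos
      have := hi (a = c); have := hi (b = d)
      linarith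
    by_cases hs : a ≠ c ∧ b ≠ d
    · obtain ⟨h1, h4⟩ := hs
      rw [zero_of_distinct g hg (al a) (be b) (al c) (be d) (hne a b) (fun h => h1 (hal h))
        (hne a d) (fun h => hne c b h.symm) (fun h => h4 (hbe h))]
      exact hrhs
    · have hge : (1 : ℝ) ≤ ((if a = c then (1 : ℝ) else 0)
        + (if b = d then (1 : ℝ) else 0)) := by
        have e1 := hi (a = c); have e4 := hi (b = d)
        by_cases h1 : a = c
        · rw [if_pos h1]; linarith
        by_cases h4 : b = d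
        · rw [if_pos h4]; linarith
        exact absurd ⟨h1, h4⟩ hs
      calc ∑ f : K → ι, g (f (al a)) (f (be b)) * g (f (al c)) (f (be d))
          ≤ ∑ f : K → ι, (4 : ℝ) := by
            apply Finset.sum_le_sum
            intro f _
            have h1 := hb (f (al a)) (f (be b))
            have h2 := hb (f (al c)) (f (be d))
            calc g (f (al a)) (f (be b)) * g (f (al c)) (f (be d))
                ≤ |g (f (al a)) (f (be b)) * g (f (al c)) (f (be d))| := le_abs_self _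
              _ = |g (f (al a)) (f (be b))| * |g (f (al c)) (f (be d))| := abs_mul _ _
              _ ≤ 2 * 2 := mul_le_mul h1 h2 (abs_nonneg _) (by norm_num)
              _ = 4 := by norm_num
        _ = 4 * N := by
            rw [Finset.sum_const, Finset.card_univ, Fintype.card_fun, nsmul_eq_mul, hN]
            push_cast
            ring
        _ ≤ 4 * N * ((if a = c then (1 : ℝ) else 0) + (if b = d then (1 : ℝ) else 0)) := by
            exact le_mul_of_one_le_right hpos hge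
  calc ∑ a : Fin r, ∑ b : Fin r, ∑ c : Fin r, ∑ d : Fin r, ∑ f : K → ι,
      g (f (al a)) (f (be b)) * g (f (al c)) (f (be d))
      ≤ ∑ a : Fin r, ∑ b : Fin r, ∑ c : Fin r, ∑ d : Fin r,
        4 * N * ((if a = c then (1 : ℝ) else 0) + (if b = d then (1 : ℝ) else 0)) := by
        apply Finset.sum_le_sum; intro a _
        apply Finset.sum_le_sum; intro b _
        apply Finset.sum_le_sum; intro c _
        apply Finset.sum_le_sum; intro d _
        exact hterm a b c d
    _ = 8 * (r : ℝ) ^ 3 * N := by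
        simp only [← Finset.mul_sum, Finset.sum_add_distrib, Finset.sum_ite_eq, Finset.mem_univ,
          if_true, Finset.sum_const, Finset.card_univ, Fintype.card_fin, nsmul_eq_mul, mul_one]
        ring

lemma chebyshev (al be : Fin r → K) (hal : Function.Injective al)
    (hbe : Function.Injective be) (hne : ∀ a b, al a ≠ be b)
    (g : ι → ι → ℝ) (hg : ∑ i, ∑ j, g i j = 0) (hb : ∀ i j, |g i j| ≤ 2)
    (t : ℝ) (ht : 0 < t) :
    (((Finset.univ.filter (fun f : K → ι => t < |X al be g f|)).card : ℕ) : ℝ) * t ^ 2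
      ≤ 8 * (r : ℝ) ^ 3 * (Fintype.card ι : ℝ) ^ (Fintype.card K) := by
  calc (((Finset.univ.filter (fun f : K → ι => t < |X al be g f|)).card : ℕ) : ℝ) * t ^ 2
      = ∑ f ∈ Finset.univ.filter (fun f : K → ι => t < |X al be g f|), t ^ 2 := by
        rw [Finset.sum_const, nsmul_eq_mul]
    _ ≤ ∑ f ∈ Finset.univ.filter (fun f : K → ι => t < |X al be g f|), (X al be g f) ^ 2 := by
        apply Finset.sum_le_sum
        intro f hf
        rw [Finset.mem_filter] at hf
        rw [← sq_abs (X al be g f)]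
        exact pow_le_pow_left₀ ht.le hf.2.le 2
    _ ≤ ∑ f : K → ι, (X al be g f) ^ 2 := by
        apply Finset.sum_le_sum_of_subset_of_nonneg (Finset.filter_subset _ _)
        intro f _ _
        positivity
    _ ≤ _ := second_moment al be hal hbe hne g hg hb

end gen

lemma inner_coord (ν w : E4) : inner ℝ ν w = ∑ p : Fin 4, ν p * w p := by
  rw [PiLp.inner_apply]
  apply Finset.sum_congr rfl
  intro p _
  simp [mul_comm]

lemma inner_sq (ν w : E4) : (inner ℝ ν w) ^ 2 = ∑ p : Fin 4, ∑ q : Fin 4, ν p * ν q * (w p * w q) := by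
  rw [inner_coord, pow_two, Finset.sum_mul]
  apply Finset.sum_congr rfl
  intro p _
  rw [Finset.mul_sum]
  apply Finset.sum_congr rfl
  intro q _
  ring

lemma sum_abs_sq (ν : E4) (hν : ‖ν‖ = 1) : (∑ p : Fin 4, |ν p|) ^ 2 ≤ 4 := by
  have h1 : (∑ p : Fin 4, |ν p|) ^ 2 ≤ (Finset.univ : Finset (Fin 4)).card * ∑ p : Fin 4, |ν p| ^ 2 :=
    sq_sum_le_card_mul_sum_sq
  have h2 : ∑ p : Fin 4, |ν p| ^ 2 = 1 := by
    have := EuclideanSpace.norm_sq_eq ν
    rw [hν] at this
    simp only [Real.norm_eq_abs] at this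
    rw [← this]
    norm_num
  rw [h2] at h1
  simpa using h1

lemma coord_le (w : E4) (hw : ‖w‖ = 1) (p : Fin 4) : |w p| ≤ 1 := by
  have := PiLp.norm_apply_le w p
  rw [hw] at this
  simpa [Real.norm_eq_abs] using this

/-- the quadratic form of an array -/
lemma quadform {A B : Type} [Fintype A] [Fintype B] (w : A → B → E4) (ν : E4) :
    ∑ a, ∑ b, (inner ℝ ν (w a b)) ^ 2
      = ∑ p : Fin 4, ∑ q : Fin 4, ν p * ν q * ∑ a, ∑ b, w a b p * w a b q := by
  simp only [inner_sq]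
  have h6 : ∀ a : A, (∑ b : B, ∑ p : Fin 4, ∑ q : Fin 4, ν p * ν q * (w a b p * w a b q))
      = ∑ p : Fin 4, ∑ q : Fin 4, ∑ b : B, ν p * ν q * (w a b p * w a b q) := by
    intro a
    rw [Finset.sum_comm]
    apply Finset.sum_congr rfl
    intro p _
    rw [Finset.sum_comm]
  simp only [h6]
  rw [Finset.sum_comm]
  apply Finset.sum_congr rfl
  intro p _
  rw [Finset.sum_comm]
  apply Finset.sum_congr rfl
  intro q _
  simp only [← Finset.mul_sum]

/-- the cross sum, colour by colour -/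
lemma cross_sum {A : Type} [Fintype A] (F : Fin 4 × A → Fin 4 × A → ℝ) :
    ∑ v, ∑ w, (if v.1 = w.1 then (0 : ℝ) else F v w)
      = ∑ s : Fin 4, ∑ t : Fin 4, if s = t then (0 : ℝ) else ∑ a, ∑ b, F (s, a) (t, b) := by
  rw [Fintype.sum_prod_type]
  apply Finset.sum_congr rfl
  intro s _
  simp only [Fintype.sum_prod_type]
  rw [Finset.sum_comm]
  apply Finset.sum_congr rfl
  intro t _
  split_ifs with h
  · simp
  · rfl

variable {ι : Type} [Fintype ι] [Nonempty ι]

/-- the average of `u_p u_q` over a pair of colours -/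
def avg (u : Fin 4 × ι → Fin 4 × ι → E4) (s t p q : Fin 4) : ℝ :=
  (∑ i, ∑ j, u (s, i) (t, j) p * u (s, i) (t, j) q) / (Fintype.card ι : ℝ) ^ 2

/-- centred products -/
def G (u : Fin 4 × ι → Fin 4 × ι → E4) (s t p q : Fin 4) (i j : ι) : ℝ :=
  u (s, i) (t, j) p * u (s, i) (t, j) q - avg u s t p q

lemma prod_le (u : Fin 4 × ι → Fin 4 × ι → E4) (hu : ∀ v w, ‖u v w‖ = 1) (s t p q : Fin 4)
    (i j : ι) : |u (s, i) (t, j) p * u (s, i) (t, j) q| ≤ 1 := by
  rw [abs_mul]
  calc |u (s, i) (t, j) p| * |u (s, i) (t, j) q| ≤ 1 * 1 :=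
        mul_le_mul (coord_le _ (hu _ _) p) (coord_le _ (hu _ _) q) (abs_nonneg _) (by norm_num)
    _ = 1 := by norm_num

lemma card_ne : (Fintype.card ι : ℝ) ≠ 0 := by
  have := Fintype.card_pos (α := ι)
  positivity

lemma card_pos' : (0 : ℝ) < (Fintype.card ι : ℝ) := by
  have := Fintype.card_pos (α := ι)
  exact_mod_cast this

lemma sum_const' (c : ℝ) : ∑ _i : ι, ∑ _j : ι, c = (Fintype.card ι : ℝ) ^ 2 * c := by
  simp only [Finset.sum_const, Finset.card_univ, nsmul_eq_mul]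
  ring

lemma avg_le (u : Fin 4 × ι → Fin 4 × ι → E4) (hu : ∀ v w, ‖u v w‖ = 1) (s t p q : Fin 4) :
    |avg u s t p q| ≤ 1 := by
  have hpos : (0 : ℝ) < (Fintype.card ι : ℝ) ^ 2 := pow_pos card_pos' 2
  unfold avg
  rw [abs_div, abs_of_pos hpos, div_le_one hpos]
  calc |∑ i, ∑ j, u (s, i) (t, j) p * u (s, i) (t, j) q|
      ≤ ∑ i : ι, |∑ j, u (s, i) (t, j) p * u (s, i) (t, j) q| :=
        Finset.abs_sum_le_sum_abs _ _
    _ ≤ ∑ i : ι, ∑ j : ι, |u (s, i) (t, j) p * u (s, i) (t, j) q| :=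
        Finset.sum_le_sum (fun i _ => Finset.abs_sum_le_sum_abs _ _)
    _ ≤ ∑ _i : ι, ∑ _j : ι, (1 : ℝ) :=
        Finset.sum_le_sum (fun i _ => Finset.sum_le_sum (fun j _ => prod_le u hu s t p q i j))
    _ = (Fintype.card ι : ℝ) ^ 2 := by rw [sum_const', mul_one]

lemma G_le (u : Fin 4 × ι → Fin 4 × ι → E4) (hu : ∀ v w, ‖u v w‖ = 1) (s t p q : Fin 4)
    (i j : ι) : |G u s t p q i j| ≤ 2 := by
  unfold G
  calc |u (s, i) (t, j) p * u (s, i) (t, j) q - avg u s t p q|
      ≤ |u (s, i) (t, j) p * u (s, i) (t, j) q| + |avg u s t p q| := abs_sub _ _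
    _ ≤ 1 + 1 := add_le_add (prod_le u hu s t p q i j) (avg_le u hu s t p q)
    _ = 2 := by norm_num

lemma G_sum (u : Fin 4 × ι → Fin 4 × ι → E4) (s t p q : Fin 4) :
    ∑ i, ∑ j, G u s t p q i j = 0 := by
  unfold G
  simp only [Finset.sum_sub_distrib]
  rw [sum_const']
  unfold avg
  have hpos : (Fintype.card ι : ℝ) ≠ 0 := card_ne
  field_simp
  ring

variable {r : ℕ}

/-- the cross sum of the pair of colours `s`, `t` -/
def Y (u : Fin 4 × ι → Fin 4 × ι → E4) (s t p q : Fin 4) (f : Fin 4 × Fin r → ι) : ℝ :=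
  X (fun a => (s, a)) (fun b => (t, b)) (G u s t p q) f

lemma Y_eq (u : Fin 4 × ι → Fin 4 × ι → E4) (s t p q : Fin 4) (f : Fin 4 × Fin r → ι) :
    ∑ a : Fin r, ∑ b : Fin r, u (s, f (s, a)) (t, f (t, b)) p * u (s, f (s, a)) (t, f (t, b)) q
      = Y u s t p q f + (r : ℝ) ^ 2 * avg u s t p q := by
  unfold Y X G
  simp only [Finset.sum_sub_distrib, Finset.sum_const, Finset.card_univ, Fintype.card_fin,
    nsmul_eq_mul]
  ring

lemma block (u : Fin 4 × ι → Fin 4 × ι → E4) (s t : Fin 4) (f : Fin 4 × Fin r → ι) (ν : E4) :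
    ∑ a : Fin r, ∑ b : Fin r, (inner ℝ ν (u (s, f (s, a)) (t, f (t, b)))) ^ 2
      = (∑ p : Fin 4, ∑ q : Fin 4, ν p * ν q * Y u s t p q f)
        + (r : ℝ) ^ 2 * ((∑ i : ι, ∑ j : ι, (inner ℝ ν (u (s, i) (t, j))) ^ 2)
          / (Fintype.card ι : ℝ) ^ 2) := by
  rw [quadform (fun (a : Fin r) (b : Fin r) => u (s, f (s, a)) (t, f (t, b))) ν,
    quadform (fun (i : ι) (j : ι) => u (s, i) (t, j)) ν]
  simp only [Y_eq]
  rw [Finset.sum_div, Finset.mul_sum, ← Finset.sum_add_distrib]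
  apply Finset.sum_congr rfl
  intro p _
  rw [Finset.sum_div, Finset.mul_sum, ← Finset.sum_add_distrib]
  apply Finset.sum_congr rfl
  intro q _
  unfold avg
  ring

lemma Y_form (u : Fin 4 × ι → Fin 4 × ι → E4) (s t : Fin 4) (f : Fin 4 × Fin r → ι) (ν : E4)
    (hν : ‖ν‖ = 1) (τ : ℝ) (hτ : 0 ≤ τ) (hf : ∀ p q, |Y u s t p q f| ≤ τ) :
    |∑ p : Fin 4, ∑ q : Fin 4, ν p * ν q * Y u s t p q f| ≤ 4 * τ := by
  calc |∑ p : Fin 4, ∑ q : Fin 4, ν p * ν q * Y u s t p q f|
      ≤ ∑ p : Fin 4, |∑ q : Fin 4, ν p * ν q * Y u s t p q f| := Finset.abs_sum_le_sum_abs _ _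
    _ ≤ ∑ p : Fin 4, ∑ q : Fin 4, |ν p * ν q * Y u s t p q f| :=
        Finset.sum_le_sum (fun p _ => Finset.abs_sum_le_sum_abs _ _)
    _ ≤ ∑ p : Fin 4, ∑ q : Fin 4, |ν p| * |ν q| * τ := by
        apply Finset.sum_le_sum; intro p _
        apply Finset.sum_le_sum; intro q _
        rw [abs_mul, abs_mul]
        exact mul_le_mul_of_nonneg_left (hf p q) (by positivity)
    _ = (∑ p : Fin 4, |ν p|) ^ 2 * τ := by
        rw [pow_two, Finset.sum_mul, Finset.sum_mul]
        apply Finset.sum_congr rfl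
        intro p _
        rw [Finset.mul_sum, Finset.sum_mul]
    _ ≤ 4 * τ := mul_le_mul_of_nonneg_right (sum_abs_sq ν hν) hτ

lemma good_iso (u : Fin 4 × ι → Fin 4 × ι → E4)
    (hu : ∀ v w, ‖u v w‖ = 1) (hs : ∀ v w, u v w = u w v)
    (hiso : ∀ ν : E4, ‖ν‖ = 1 →
      |(∑ v, ∑ w, if v.1 = w.1 then (0 : ℝ) else (inner ℝ ν (u v w)) ^ 2)
        / (12 * (Fintype.card ι : ℝ) ^ 2) - 1 / 4| ≤ 1 / 400)
    (f : Fin 4 × Fin r → ι)
    (hf : ∀ s t p q : Fin 4, s ≠ t → |Y u s t p q f| ≤ (r : ℝ) ^ 2 / 1000) :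
    Iso4 r (fun v w => u (v.1, f v) (w.1, f w)) := by
  refine ⟨fun v w => hu _ _, fun v w => hs _ _, ?_⟩
  intro ν hν
  have hR : (0 : ℝ) ≤ (r : ℝ) ^ 2 := by positivity
  rw [cross_sum (fun v w : Fin 4 × Fin r => (inner ℝ ν (u (v.1, f v) (w.1, f w))) ^ 2)]
  have h2 := hiso ν hν
  rw [cross_sum (fun v w : Fin 4 × ι => (inner ℝ ν (u v w)) ^ 2)] at h2
  set S : Fin 4 → Fin 4 → ℝ := fun s t =>
    if s = t then (0 : ℝ) else ∑ p : Fin 4, ∑ q : Fin 4, ν p * ν q * Y u s t p q f with hS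
  set A : Fin 4 → Fin 4 → ℝ := fun s t =>
    if s = t then (0 : ℝ) else ∑ i : ι, ∑ j : ι, (inner ℝ ν (u (s, i) (t, j))) ^ 2 with hA
  have h3 : (∑ s : Fin 4, ∑ t : Fin 4, if s = t then (0 : ℝ) else
      ∑ a : Fin r, ∑ b : Fin r, (inner ℝ ν (u (s, f (s, a)) (t, f (t, b)))) ^ 2)
      = (∑ s, ∑ t, S s t) + (r : ℝ) ^ 2 * ((∑ s, ∑ t, A s t) / (Fintype.card ι : ℝ) ^ 2) := by
    rw [Finset.sum_div, Finset.mul_sum, ← Finset.sum_add_distrib]
    apply Finset.sum_congr rfl
    intro s _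
    rw [Finset.sum_div, Finset.mul_sum, ← Finset.sum_add_distrib]
    apply Finset.sum_congr rfl
    intro t _
    rw [hS, hA]
    simp only
    split_ifs with h
    · simp
    · exact block u s t f ν
  have h4 : |∑ s, ∑ t, S s t| ≤ 16 * (4 * ((r : ℝ) ^ 2 / 1000)) := by
    calc |∑ s, ∑ t, S s t| ≤ ∑ s, |∑ t, S s t| := Finset.abs_sum_le_sum_abs _ _
      _ ≤ ∑ s, ∑ t, |S s t| := Finset.sum_le_sum (fun p _ => Finset.abs_sum_le_sum_abs _ _)
      _ ≤ ∑ _s : Fin 4, ∑ _t : Fin 4, (4 * ((r : ℝ) ^ 2 / 1000)) := by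
          apply Finset.sum_le_sum; intro s _
          apply Finset.sum_le_sum; intro t _
          rw [hS]
          simp only
          split_ifs with h
          · rw [abs_zero]; positivity
          · exact Y_form u s t f ν hν _ (by positivity) (fun p q => hf s t p q h)
      _ = 16 * (4 * ((r : ℝ) ^ 2 / 1000)) := by
          simp only [Finset.sum_const, Finset.card_univ, Fintype.card_fin, nsmul_eq_mul]
          push_cast
          ring
  have h5 : (∑ s, ∑ t, A s t) / (12 * (Fintype.card ι : ℝ) ^ 2)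
      = ((∑ s, ∑ t, A s t) / (Fintype.card ι : ℝ) ^ 2) / 12 := by
    have hpos : (Fintype.card ι : ℝ) ≠ 0 := card_ne
    field_simp
  have h2' : |((∑ s, ∑ t, A s t) / (Fintype.card ι : ℝ) ^ 2) / 12 - 1 / 4| ≤ 1 / 400 := by
    rw [← h5]
    exact h2
  have h3' : (∑ s : Fin 4, ∑ t : Fin 4, if s = t then (0 : ℝ) else
      ∑ a : Fin r, ∑ b : Fin r, (inner ℝ ν (u ((s, a).1, f (s, a)) ((t, b).1, f (t, b)))) ^ 2)
      = (∑ s, ∑ t, S s t) + (r : ℝ) ^ 2 * ((∑ s, ∑ t, A s t) / (Fintype.card ι : ℝ) ^ 2) := h3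
  rw [h3']
  set B : ℝ := (∑ s, ∑ t, A s t) / (Fintype.card ι : ℝ) ^ 2 with hB
  rw [abs_le] at h4 h2' ⊢
  obtain ⟨h4a, h4b⟩ := h4
  obtain ⟨h2a, h2b⟩ := h2'
  have h6 : (r : ℝ) ^ 2 * B ≤ (r : ℝ) ^ 2 * (3 + 3 / 100) :=
    mul_le_mul_of_nonneg_left (by linarith) hR
  have h7 : (r : ℝ) ^ 2 * (3 - 3 / 100) ≤ (r : ℝ) ^ 2 * B :=
    mul_le_mul_of_nonneg_left (by linarith) hR
  constructor <;> nlinarith

lemma sampling_of (hr : 1 ≤ r) (hbig : 4096 * 10 ^ 6 ≤ (r : ℝ))
    (u : Fin 4 × ι → Fin 4 × ι → E4)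
    (hu : ∀ v w, ‖u v w‖ = 1) (hs : ∀ v w, u v w = u w v)
    (hiso : ∀ ν : E4, ‖ν‖ = 1 →
      |(∑ v, ∑ w, if v.1 = w.1 then (0 : ℝ) else (inner ℝ ν (u v w)) ^ 2)
        / (12 * (Fintype.card ι : ℝ) ^ 2) - 1 / 4| ≤ 1 / 400) :
    (Fintype.card ι : ℝ) ^ (4 * r) / 2 ≤
      (Nat.card {f : Fin 4 × Fin r → ι //
        Iso4 r (fun v w => u (v.1, f v) (w.1, f w))} : ℝ) := by
  classical
  have hr1 : (1 : ℝ) ≤ r := by exact_mod_cast hr
  set t : ℝ := (r : ℝ) ^ 2 / 1000 with ht
  have htpos : 0 < t := by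
    rw [ht]
    positivity
  set M : ℝ := (Fintype.card ι : ℝ) ^ (4 * r) with hM
  have hM0 : 0 ≤ M := by rw [hM]; positivity
  have hcK : Fintype.card (Fin 4 × Fin r) = 4 * r := by
    rw [Fintype.card_prod, Fintype.card_fin, Fintype.card_fin]
  set bad : Fin 4 → Fin 4 → Fin 4 → Fin 4 → Finset (Fin 4 × Fin r → ι) := fun s t' p q =>
    if s = t' then ∅ else
    Finset.univ.filter (fun f : Fin 4 × Fin r → ι => t < |Y u s t' p q f|) with hbad
  have hb2 : ∀ s t' p q, ((bad s t' p q).card : ℝ) ≤ M / 512 := by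
    intro s t' p q
    rw [hbad]
    simp only
    split_ifs with h
    · rw [Finset.card_empty]; push_cast; positivity
    have h1 := chebyshev (K := Fin 4 × Fin r) (fun a => (s, a)) (fun b => (t', b))
      (fun a b hab => (Prod.mk.inj hab).2) (fun a b hab => (Prod.mk.inj hab).2)
      (fun a b hab => h (Prod.mk.inj hab).1) (G u s t' p q) (G_sum u s t' p q)
      (G_le u hu s t' p q) t htpos
    rw [hcK, ← hM] at h1
    have ht2 : 0 < t ^ 2 := by positivity
    have h3 : 8 * (r : ℝ) ^ 3 ≤ t ^ 2 / 512 := by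
      rw [ht]
      have hr0 : (0 : ℝ) ≤ (r : ℝ) ^ 3 := by positivity
      have := mul_le_mul_of_nonneg_left hbig hr0
      nlinarith
    have h4 : (((Finset.univ.filter (fun f : Fin 4 × Fin r → ι =>
        t < |Y u s t' p q f|)).card : ℕ) : ℝ) * t ^ 2 ≤ (M / 512) * t ^ 2 := by
      calc _ ≤ 8 * (r : ℝ) ^ 3 * M := h1
        _ ≤ t ^ 2 / 512 * M := mul_le_mul_of_nonneg_right h3 hM0
        _ = (M / 512) * t ^ 2 := by ring
    exact le_of_mul_le_mul_right h4 ht2
  set B : Finset (Fin 4 × Fin r → ι) := Finset.univ.biUnion (fun s : Fin 4 =>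
    Finset.univ.biUnion (fun t' : Fin 4 => Finset.univ.biUnion (fun p : Fin 4 =>
      Finset.univ.biUnion (fun q : Fin 4 => bad s t' p q)))) with hB
  have hBcard : (B.card : ℝ) ≤ M / 2 := by
    have h1 : B.card ≤ ∑ s : Fin 4, ∑ t' : Fin 4, ∑ p : Fin 4, ∑ q : Fin 4,
        (bad s t' p q).card := by
      refine Finset.card_biUnion_le.trans ?_
      refine Finset.sum_le_sum (fun s _ => ?_)
      refine Finset.card_biUnion_le.trans ?_
      refine Finset.sum_le_sum (fun t' _ => ?_)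
      refine Finset.card_biUnion_le.trans ?_
      exact Finset.sum_le_sum (fun p _ => Finset.card_biUnion_le)
    calc (B.card : ℝ) ≤ ((∑ s : Fin 4, ∑ t' : Fin 4, ∑ p : Fin 4, ∑ q : Fin 4,
          (bad s t' p q).card : ℕ) : ℝ) := by exact_mod_cast h1
      _ = ∑ s : Fin 4, ∑ t' : Fin 4, ∑ p : Fin 4, ∑ q : Fin 4, ((bad s t' p q).card : ℝ) := by
          push_cast; rfl
      _ ≤ ∑ _s : Fin 4, ∑ _t : Fin 4, ∑ _p : Fin 4, ∑ _q : Fin 4, M / 512 :=
          Finset.sum_le_sum (fun s _ => Finset.sum_le_sum (fun t' _ =>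
            Finset.sum_le_sum (fun p _ => Finset.sum_le_sum (fun q _ => hb2 s t' p q))))
      _ = M / 2 := by
          simp only [Finset.sum_const, Finset.card_univ, Fintype.card_fin, nsmul_eq_mul]
          push_cast
          ring
  have hsub : Bᶜ ⊆ Finset.univ.filter (fun f : Fin 4 × Fin r → ι =>
      Iso4 r (fun v w => u (v.1, f v) (w.1, f w))) := by
    intro f hf
    rw [Finset.mem_filter]
    refine ⟨Finset.mem_univ _, good_iso u hu hs hiso f ?_⟩
    intro s t' p q hst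
    by_contra hcon
    rw [not_le] at hcon
    rw [Finset.mem_compl] at hf
    apply hf
    rw [hB]
    simp only [Finset.mem_biUnion, Finset.mem_univ, true_and]
    refine ⟨s, t', p, q, ?_⟩
    rw [hbad]
    simp only
    rw [if_neg hst, Finset.mem_filter]
    exact ⟨Finset.mem_univ _, hcon⟩
  have hcard : (Nat.card {f : Fin 4 × Fin r → ι // Iso4 r (fun v w => u (v.1, f v) (w.1, f w))})
      = (Finset.univ.filter (fun f : Fin 4 × Fin r → ι =>
      Iso4 r (fun v w => u (v.1, f v) (w.1, f w)))).card := by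
    rw [Nat.card_eq_fintype_card, Fintype.card_subtype]
  rw [hcard]
  have h5 : (Bᶜ.card : ℝ) = M - B.card := by
    rw [Finset.card_compl, Fintype.card_fun, hcK, Nat.cast_sub]
    · rw [hM]; push_cast; ring
    · calc B.card ≤ Fintype.card (Fin 4 × Fin r → ι) := Finset.card_le_univ B
        _ = Fintype.card ι ^ (4 * r) := by rw [Fintype.card_fun, hcK]
  have h6 : (Bᶜ.card : ℝ) ≤ ((Finset.univ.filter (fun f : Fin 4 × Fin r → ι =>
      Iso4 r (fun v w => u (v.1, f v) (w.1, f w)))).card : ℝ) := by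
    exact_mod_cast Finset.card_le_card hsub
  linarith

end

end Pool.Agent.LPC.S

namespace Pool.Agent.LPC

open Pool.Agent.LPI

/-- [S4] sampling. The map `f` sends the vertex `(s, a)` to the vertex `(s, f (s, a))`. -/
theorem sampling : ∃ r : ℕ, 1 ≤ r ∧ ∀ (ι : Type) [Fintype ι] [Nonempty ι],
    ∀ u : Fin 4 × ι → Fin 4 × ι → E4,
    (∀ v w, ‖u v w‖ = 1) → (∀ v w, u v w = u w v) →
    (∀ ν : E4, ‖ν‖ = 1 →
      |(∑ v, ∑ w, if v.1 = w.1 then (0 : ℝ) else (inner ℝ ν (u v w)) ^ 2)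
        / (12 * (Fintype.card ι : ℝ) ^ 2) - 1 / 4| ≤ 1 / 400) →
    (Fintype.card ι : ℝ) ^ (4 * r) / 2 ≤
      (Nat.card {f : Fin 4 × Fin r → ι //
        Iso4 r (fun v w => u (v.1, f v) (w.1, f w))} : ℝ) := by
  obtain ⟨r, hr⟩ : ∃ r : ℕ, r = 10 ^ 10 := ⟨_, rfl⟩
  have hr' : (r : ℝ) = 10 ^ 10 := by rw [hr]; norm_num
  refine ⟨r, by rw [hr]; norm_num, ?_⟩
  intro ι _ _ u hu hs hiso
  exact S.sampling_of (by rw [hr]; norm_num) (by rw [hr']; norm_num) u hu hs hiso

end Pool.Agent.LPC
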