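import Pool.Agent.LPC.P4h43
import Pool.Agent.LPC.A4
import Pool.Agent.LPC.S4
import Pool.Agent.LPC.C4
import Pool.Agent.LPC.D4
import Pool.Agent.LPI.L
import Pool.Agent.LPC.R4

/-! [Z4] core of the four-colour robust theorem. -/

namespace Pool.Agent.LPC

open Pool.Agent.LPI
open scoped BigOperators

noncomputable section

theorem z4_lift_ne (x : E3) : lift x ≠ 0 := by
  intro h
  have := congrArg (fun v : E4 => v 0) h
  simp [lift] at this

theorem z4_norm_unit {w : E4} (h : w ≠ 0) : ‖unit w‖ = 1 := by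
  unfold unit
  rw [norm_smul, norm_inv, norm_norm, inv_mul_cancel₀ (norm_ne_zero_iff.2 h)]

/-- The lift of a convex combination. -/
theorem z4_lift_comb (x y z : E3) (a b c : ℝ) (h : a + b + c ≠ 0) :
    lift ((a + b + c)⁻¹ • (a • x + b • y + c • z)) =
      (a + b + c)⁻¹ • (a • lift x + b • lift y + c • lift z) := by
  ext i
  fin_cases i
  · simp [lift]
    field_simp
  · simp [lift]
  · simp [lift]
  · simp [lift]

theorem z4_cone {K : Set E3} (hK : Convex ℝ K) {x y z : E3} (hx : x ∈ K) (hy : y ∈ K) (hz : z ∈ K)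
    {a b c : ℝ} (ha : 0 < a) (hb : 0 < b) (hc : 0 < c) {P : Submodule ℝ E4}
    (h : a • lift x + b • lift y + c • lift z ∈ P) : ∃ w ∈ K, lift w ∈ P := by
  have hs : 0 < a + b + c := by positivity
  refine ⟨(a + b + c)⁻¹ • (a • x + b • y + c • z), ?_, ?_⟩
  · have h1 : (a + b + c)⁻¹ • (a • x + b • y + c • z) =
        ((a + b) / (a + b + c)) • ((a / (a + b)) • x + (b / (a + b)) • y) +
          (c / (a + b + c)) • z := by
      have hab : a + b ≠ 0 := by positivity
      rw [smul_add, smul_add, smul_add, smul_smul, smul_smul, smul_smul, smul_smul, smul_smul]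
      congr 2
      · congr 1
        field_simp
      · congr 1
        field_simp
      · field_simp
    rw [h1]
    refine hK (hK hx hy ?_ ?_ ?_) hz ?_ ?_ ?_
    · positivity
    · positivity
    · field_simp
    · positivity
    · positivity
    · field_simp
  · rw [z4_lift_comb x y z a b c hs.ne']
    exact P.smul_mem _ h

/-! ### Counting -/

open Classical in
/-- The maps `f` with `f a ∈ H`. -/
theorem z4_card_le {V ι : Type} [Fintype V] [DecidableEq V] [Fintype ι] (a : V) (H : Finset ι) :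
    ((Finset.univ.filter fun f : V → ι => f a ∈ H).card : ℝ) * Fintype.card ι ≤
      H.card * (Fintype.card ι : ℝ) ^ Fintype.card V := by
  have h1 : (Finset.univ.filter fun f : V → ι => f a ∈ H) =
      Fintype.piFinset fun b : V => if b = a then H else Finset.univ := by
    ext f
    simp only [Finset.mem_filter, Finset.mem_univ, true_and, Fintype.mem_piFinset]
    constructor
    · intro hf b
      by_cases hb : b = a
      · subst hb
        simpa using hf
      · simp [hb]
    · intro hf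
      have := hf a
      simpa using this
  rw [h1, Fintype.card_piFinset]
  have h2 : ∀ b : V, (if b = a then H else (Finset.univ : Finset ι)).card =
      if b = a then H.card else Fintype.card ι := by
    intro b
    split_ifs <;> simp
  rw [Finset.prod_congr rfl fun b _ => h2 b, ← Finset.mul_prod_erase Finset.univ _ (Finset.mem_univ a)]
  have h3 : ∏ b ∈ Finset.univ.erase a, (if b = a then H.card else Fintype.card ι) =
      Fintype.card ι ^ (Fintype.card V - 1) := by
    rw [Finset.prod_congr rfl fun b hb => if_neg (Finset.ne_of_mem_erase hb), Finset.prod_const,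
      Finset.card_erase_of_mem (Finset.mem_univ a), Finset.card_univ]
  rw [h3, if_pos rfl]
  have hr : Fintype.card V - 1 + 1 = Fintype.card V := by
    have : 0 < Fintype.card V := Fintype.card_pos_iff.2 ⟨a⟩
    omega
  push_cast
  have h4 : (Fintype.card ι : ℝ) ^ Fintype.card V =
      (Fintype.card ι : ℝ) ^ (Fintype.card V - 1) * Fintype.card ι := by
    rw [← pow_succ, hr]
  rw [h4]
  nlinarith

open Classical in
/-- The maps `f` with `f a = i`, `f b = j` (`a ≠ b`). -/
theorem z4_card_two {V ι : Type} [Fintype V] [DecidableEq V] [Fintype ι] (a b : V) (hab : a ≠ b) (i j : ι) :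
    ((Finset.univ.filter fun f : V → ι => f a = i ∧ f b = j).card : ℝ) *
      (Fintype.card ι : ℝ) ^ 2 = (Fintype.card ι : ℝ) ^ Fintype.card V := by
  have h1 : (Finset.univ.filter fun f : V → ι => f a = i ∧ f b = j) =
      Fintype.piFinset fun c : V => if c = a then {i} else if c = b then {j} else Finset.univ := by
    ext f
    simp only [Finset.mem_filter, Finset.mem_univ, true_and, Fintype.mem_piFinset]
    constructor
    · rintro ⟨hfa, hfb⟩ c
      by_cases hc : c = a
      · subst hc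
        simpa using hfa
      · by_cases hc' : c = b
        · subst hc'
          simpa [hc] using hfb
        · simp [hc, hc']
    · intro hf
      have h1 := hf a
      have h2 := hf b
      simp only [if_true, Finset.mem_singleton] at h1
      rw [if_neg hab.symm, if_pos rfl, Finset.mem_singleton] at h2
      exact ⟨h1, h2⟩
  rw [h1, Fintype.card_piFinset]
  have h2 : ∀ c : V, (if c = a then ({i} : Finset ι) else if c = b then {j} else
      (Finset.univ : Finset ι)).card =
      if c = a then 1 else if c = b then 1 else Fintype.card ι := by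
    intro c
    split_ifs <;> simp
  have hb : b ∈ (Finset.univ : Finset V).erase a :=
    Finset.mem_erase.2 ⟨hab.symm, Finset.mem_univ _⟩
  rw [Finset.prod_congr rfl fun c _ => h2 c, ← Finset.mul_prod_erase Finset.univ _ (Finset.mem_univ a),
    ← Finset.mul_prod_erase _ _ hb]
  have h3 : ∏ c ∈ (Finset.univ.erase a).erase b, (if c = a then 1 else if c = b then 1 else
      Fintype.card ι) = Fintype.card ι ^ (Fintype.card V - 1 - 1) := by
    have h4 : ∀ c ∈ (Finset.univ.erase a).erase b, (if c = a then 1 else if c = b then 1 else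
      Fintype.card ι) = Fintype.card ι := by
      intro c hc
      rw [Finset.mem_erase, Finset.mem_erase] at hc
      rw [if_neg hc.2.1, if_neg hc.1]
    rw [Finset.prod_congr rfl h4, Finset.prod_const,
      Finset.card_erase_of_mem hb, Finset.card_erase_of_mem (Finset.mem_univ a), Finset.card_univ]
  rw [h3, if_pos rfl, if_neg hab.symm, if_pos rfl]
  have hr : Fintype.card V - 1 - 1 + 2 = Fintype.card V := by
    have h5 : 1 < Fintype.card V := Fintype.one_lt_card_iff.2 ⟨a, b, hab⟩
    omega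
  push_cast
  rw [one_mul, one_mul, ← pow_add, hr]

open Classical in
/-- The maps `f` with `(f a, f b) ∈ D` (`a ≠ b`). -/
theorem z4_card_pair {V ι : Type} [Fintype V] [DecidableEq V] [Fintype ι] (a b : V) (hab : a ≠ b)
    (D : Finset (ι × ι)) :
    ((Finset.univ.filter fun f : V → ι => (f a, f b) ∈ D).card : ℝ) * (Fintype.card ι : ℝ) ^ 2 =
      D.card * (Fintype.card ι : ℝ) ^ Fintype.card V := by
  have h1 : (Finset.univ.filter fun f : V → ι => (f a, f b) ∈ D).card =
      ∑ ij ∈ D, (Finset.univ.filter fun f : V → ι => f a = ij.1 ∧ f b = ij.2).card := by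
    rw [Finset.card_eq_sum_card_fiberwise (f := fun f : V → ι => (f a, f b)) (t := D)]
    · refine Finset.sum_congr rfl fun ij hij => ?_
      congr 1
      ext f
      simp only [Finset.mem_filter, Finset.mem_univ, true_and]
      constructor
      · rintro ⟨-, h⟩
        rw [← h]
        exact ⟨rfl, rfl⟩
      · rintro ⟨h1, h2⟩
        have h3 : (f a, f b) = ij := by rw [h1, h2]
        rw [h3]
        exact ⟨hij, rfl⟩
    · intro f hf
      simpa using hf
  rw [h1]
  push_cast
  rw [Finset.sum_mul, Finset.sum_congr rfl fun ij _ => z4_card_two a b hab ij.1 ij.2,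
    Finset.sum_const, nsmul_eq_mul]

/-! ### The core -/

/-- A point of a set (`0` if the set is empty). -/
def z4_pick (X : Set E3) : E3 := by
  classical
  exact if h : X.Nonempty then h.choose else 0

theorem z4_pick_mem {X : Set E3} (h : X.Nonempty) : z4_pick X ∈ X := by
  unfold z4_pick
  rw [dif_pos h]
  exact h.choose_spec

/-- Splitting the ordered pairs of vertices by their colours. -/
theorem z4_split {ι : Type} [Fintype ι] (P : Fin 4 → ι → Fin 4 → ι → Prop) (K : ℝ)
    (hK : ∀ s t, s ≠ t → (Nat.card {ij : ι × ι // P s ij.1 t ij.2} : ℝ) ≤ K) :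
    (Nat.card {vw : (Fin 4 × ι) × (Fin 4 × ι) //
      vw.1.1 ≠ vw.2.1 ∧ P vw.1.1 vw.1.2 vw.2.1 vw.2.2} : ℝ) ≤ 12 * K := by
  classical
  have h1 : (Nat.card {vw : (Fin 4 × ι) × (Fin 4 × ι) //
      vw.1.1 ≠ vw.2.1 ∧ P vw.1.1 vw.1.2 vw.2.1 vw.2.2}) =
      ∑ s : Fin 4, ∑ t : Fin 4, if s = t then 0 else Nat.card {ij : ι × ι // P s ij.1 t ij.2} := by
    rw [Nat.card_eq_fintype_card, Fintype.card_subtype, Finset.card_filter,
      Fintype.sum_prod_type, Fintype.sum_prod_type]
    simp only [Fintype.sum_prod_type]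
    refine Finset.sum_congr rfl fun s _ => ?_
    rw [Finset.sum_comm]
    refine Finset.sum_congr rfl fun t _ => ?_
    by_cases hst : s = t
    · simp [hst]
    · rw [if_neg hst, Nat.card_eq_fintype_card, Fintype.card_subtype, Finset.card_filter,
        Fintype.sum_prod_type]
      simp [hst]
  rw [h1]
  push_cast
  have h2 : ∀ s t : Fin 4, (((if s = t then 0 else Nat.card {ij : ι × ι // P s ij.1 t ij.2} : ℕ)) : ℝ)
      ≤ if s = t then 0 else K := by
    intro s t
    split_ifs with h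
    · simp
    · exact hK s t h
  push_cast at h2
  calc _ ≤ ∑ s : Fin 4, ∑ t : Fin 4, (if s = t then (0 : ℝ) else K) :=
        Finset.sum_le_sum fun s _ => Finset.sum_le_sum fun t _ => h2 s t
    _ = 12 * K := by
        simp [Fin.sum_univ_four]
        ring

/-- The ordered pairs of vertices of different colours. -/
abbrev Z4K (ι : Type) : Type :=
  {vw : (Fin 4 × ι) × (Fin 4 × ι) // vw.1.1 ≠ vw.2.1}

local instance z4_fintype (ι : Type) [Fintype ι] : Fintype (Z4K ι) := by
  classical
  exact Subtype.fintype _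

theorem z4_sum {ι : Type} [Fintype ι] (g : Fin 4 × ι → Fin 4 × ι → ℝ) :
    ∑ k : Z4K ι, g k.1.1 k.1.2 = ∑ v, ∑ w, if v.1 = w.1 then (0 : ℝ) else g v w := by
  classical
  have h1 : ∑ k : Z4K ι, g k.1.1 k.1.2 =
      ∑ vw ∈ (Finset.univ : Finset ((Fin 4 × ι) × (Fin 4 × ι))).filter
        (fun vw => vw.1.1 ≠ vw.2.1), g vw.1 vw.2 := by
    rw [← Finset.sum_subtype_eq_sum_filter]
    refine Finset.sum_bij (fun k _ => k) (fun k _ => by simp) (fun _ _ _ _ h => h)
      (fun k _ => ⟨k, Finset.mem_univ _, rfl⟩) (fun k _ => rfl)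
  rw [h1, Finset.sum_filter, Fintype.sum_prod_type]
  refine Finset.sum_congr rfl fun v _ => Finset.sum_congr rfl fun w _ => ?_
  by_cases h : v.1 = w.1 <;> simp [h]

theorem z4_card {ι : Type} [Fintype ι] :
    (Fintype.card (Z4K ι) : ℝ) = 12 * (Fintype.card ι : ℝ) ^ 2 := by
  have h1 := z4_sum (ι := ι) (fun _ _ => 1)
  rw [Finset.sum_const, nsmul_eq_mul, mul_one, Finset.card_univ] at h1
  rw [h1]
  simp only [Fintype.sum_prod_type]
  simp [Fin.sum_univ_four]
  ring

/-- [Z4] core. -/
theorem core : ∃ c e : ℝ, 0 < c ∧ 0 < e ∧ ∀ (ι : Type) [Fintype ι] [Nonempty ι]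
    (A : Fin 4 → ι → Set E3), (∀ s i, Convex ℝ (A s i)) →
    (∀ s t, s ≠ t → (Nat.card {ij : ι × ι // ¬ (A s ij.1 ∩ A t ij.2).Nonempty} : ℝ)
      ≤ e * (Fintype.card ι : ℝ) ^ 2) →
      ∃ (s : Fin 4) (x d : E3), d ≠ 0 ∧ c * Fintype.card ι ≤ (met (A s) x d : ℝ) := by
  classical
  obtain ⟨r, hr, hs⟩ := sampling
  obtain ⟨N, S, W, hSW, hnet⟩ := net_of r (fun u hu => row_rank r hr u hu)
  have hr0 : (0 : ℝ) < r := by
    have : 0 < r := by omega
    exact_mod_cast this
  have hN0 : (0 : ℝ) < (N : ℝ) + 1 := by positivity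
  refine ⟨min (1 / 16000) (1 / (16 * (N + 1) * r)), min (1 / 8000) (1 / (48 * r ^ 2)),
    lt_min (by norm_num) (by positivity), lt_min (by norm_num) (by positivity), ?_⟩
  intro ι _ _ A hconv hdis
  by_contra hcon
  push Not at hcon
  set n : ℝ := (Fintype.card ι : ℝ) with hn
  have hn0 : 0 < n := by
    have : 0 < Fintype.card ι := Fintype.card_pos
    rw [hn]
    exact_mod_cast this
  have h16 : ∀ s (x d : E3), d ≠ 0 → (met (A s) x d : ℝ) < (1 / 16000) * n := fun s x d hd =>
    (hcon s x d hd).trans_le (mul_le_mul_of_nonneg_right (min_le_left _ _) hn0.le)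
  have hNr : ∀ s (x d : E3), d ≠ 0 → (met (A s) x d : ℝ) < (1 / (16 * (N + 1) * r)) * n :=
    fun s x d hd =>
    (hcon s x d hd).trans_le (mul_le_mul_of_nonneg_right (min_le_right _ _) hn0.le)
  have he8 : ∀ s t, s ≠ t → (Nat.card {ij : ι × ι // ¬ (A s ij.1 ∩ A t ij.2).Nonempty} : ℝ)
      ≤ (1 / 8000) * n ^ 2 := fun s t hst =>
    (hdis s t hst).trans (mul_le_mul_of_nonneg_right (min_le_left _ _) (by positivity))
  have her : ∀ s t, s ≠ t → (Nat.card {ij : ι × ι // ¬ (A s ij.1 ∩ A t ij.2).Nonempty} : ℝ)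
      ≤ (1 / (48 * r ^ 2)) * n ^ 2 := fun s t hst =>
    (hdis s t hst).trans (mul_le_mul_of_nonneg_right (min_le_right _ _) (by positivity))
  -- the points
  set p : Fin 4 × ι → Fin 4 × ι → E3 := fun v w => z4_pick (A v.1 v.2 ∩ A w.1 w.2) with hp_def
  set R : Fin 4 × ι → Fin 4 × ι → Prop := fun v w => (A v.1 v.2 ∩ A w.1 w.2).Nonempty with hR_def
  have hp : ∀ v w, R v w → p v w ∈ A v.1 v.2 := fun v w h => (z4_pick_mem h).1
  have hRsym : ∀ v w, R v w → R w v := fun v w h => by
    simp only [hR_def] at h ⊢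
    rwa [Set.inter_comm]
  have hsym : ∀ v w, p v w = p w v := fun v w => by
    simp only [hp_def]
    rw [Set.inter_comm]
  have hRcard : (Nat.card {vw : (Fin 4 × ι) × (Fin 4 × ι) //
      vw.1.1 ≠ vw.2.1 ∧ ¬ R vw.1 vw.2} : ℝ) ≤ (1 / 8000) * (12 * n ^ 2) := by
    have h1 := z4_split (ι := ι) (fun s i t j => ¬ (A s i ∩ A t j).Nonempty)
      ((1 / 8000) * n ^ 2) he8
    have h2 : 12 * ((1 / 8000) * n ^ 2) = (1 / 8000) * (12 * n ^ 2) := by ring
    rw [h2] at h1
    exact h1
  have hplane : ∀ a : E3, a ≠ 0 → ∀ b : ℝ,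
      (Nat.card {k : Z4K ι // inner ℝ a (p k.1.1 k.1.2) = b} : ℝ) ≤
        (1 / 4000) * Fintype.card (Z4K ι) := by
    intro a ha b
    have h1 := plane_bound A hconv R p hp hRsym hsym (1 / 8000) hRcard (1 / 16000) h16 a ha b
    rw [z4_card]
    have h2 : Nat.card {k : Z4K ι // inner ℝ a (p k.1.1 k.1.2) = b} =
        Nat.card {vw : (Fin 4 × ι) × (Fin 4 × ι) //
          vw.1.1 ≠ vw.2.1 ∧ inner ℝ a (p vw.1 vw.2) = b} :=
      Nat.card_congr (Equiv.subtypeSubtypeEquivSubtypeInter
        (fun vw : (Fin 4 × ι) × (Fin 4 × ι) => vw.1.1 ≠ vw.2.1)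
        (fun vw => inner ℝ a (p vw.1 vw.2) = b))
    rw [h2]
    refine h1.trans (le_of_eq ?_)
    rw [← hn]
    ring
  have hne : Nonempty (Z4K ι) := by
    obtain ⟨i⟩ := (inferInstance : Nonempty ι)
    exact ⟨⟨((0, i), (1, i)), by simp⟩⟩
  obtain ⟨T, hT⟩ := uniform_iso (fun k : Z4K ι => p k.1.1 k.1.2) hplane
  have hTne : ∀ v w, T (lift (p v w)) ≠ 0 := fun v w h =>
    z4_lift_ne (p v w) ((LinearEquiv.map_eq_zero_iff T).1 h)
  set u : Fin 4 × ι → Fin 4 × ι → E4 := fun v w => unit (T (lift (p v w))) with hu_def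
  have hu1 : ∀ v w, ‖u v w‖ = 1 := fun v w => z4_norm_unit (hTne v w)
  have husym : ∀ v w, u v w = u w v := fun v w => by
    simp only [hu_def]
    rw [hsym v w]
  have hiso : ∀ ν : E4, ‖ν‖ = 1 →
      |(∑ v, ∑ w, if v.1 = w.1 then (0 : ℝ) else (inner ℝ ν (u v w)) ^ 2)
        / (12 * (Fintype.card ι : ℝ) ^ 2) - 1 / 4| ≤ 1 / 400 := by
    intro ν hν
    have h1 := hT ν hν
    rw [z4_card, z4_sum (fun v w => (inner ℝ ν (unit (T (lift (p v w))))) ^ 2)] at h1
    exact h1
  have hgood := hs ι u hu1 husym hiso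
  -- the lines
  have hind : ∀ k, LinearIndependent ℝ ![T.symm (S k), T.symm (W k)] := by
    intro k
    have h1 := (hSW k).map' (T.symm : E4 →ₗ[ℝ] E4) (LinearEquiv.ker T.symm)
    have h2 : (⇑(T.symm : E4 →ₗ[ℝ] E4) ∘ ![S k, W k]) = ![T.symm (S k), T.symm (W k)] := by
      funext i
      fin_cases i <;> rfl
    rwa [h2] at h1
  choose X D hD hline using fun k => trace_line _ _ (hind k)
  set H : Fin N → Fin 4 → Finset ι := fun k s =>
    Finset.univ.filter fun i => ∃ t : ℝ, X k + t • D k ∈ A s i with hH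
  have hHc : ∀ k s, ((H k s).card : ℝ) < (1 / (16 * (N + 1) * r)) * n := by
    intro k s
    have h1 := hNr s (X k) (D k) (hD k)
    unfold met at h1
    rwa [Nat.card_eq_fintype_card, Fintype.card_subtype] at h1
  -- the pairs of disjoint sets
  set B : Fin 4 → Fin 4 → Finset (ι × ι) := fun s t =>
    Finset.univ.filter fun ij => s ≠ t ∧ ¬ (A s ij.1 ∩ A t ij.2).Nonempty with hB
  have hBc : ∀ s t, ((B s t).card : ℝ) ≤ if s = t then 0 else (1 / (48 * r ^ 2)) * n ^ 2 := by
    intro s t
    split_ifs with h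
    · have : B s t = ∅ := by
        simp [hB, h]
      simp [this]
    · have h1 := her s t h
      rw [Nat.card_eq_fintype_card, Fintype.card_subtype] at h1
      have h2 : B s t = Finset.univ.filter fun ij : ι × ι => ¬ (A s ij.1 ∩ A t ij.2).Nonempty := by
        simp [hB, h]
      rw [h2]
      exact h1
  -- every good map hits, or has a disjoint pair
  have hcov : (Finset.univ.filter fun f : Fin 4 × Fin r → ι =>
      Iso4 r (fun v w => u (v.1, f v) (w.1, f w))) ⊆
      ((Finset.univ : Finset (Fin N × (Fin 4 × Fin r))).biUnion fun ka =>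
        Finset.univ.filter fun f : Fin 4 × Fin r → ι => f ka.2 ∈ H ka.1 ka.2.1) ∪
      ((Finset.univ : Finset ((Fin 4 × Fin r) × (Fin 4 × Fin r))).biUnion fun vw =>
        Finset.univ.filter fun f : Fin 4 × Fin r → ι => (f vw.1, f vw.2) ∈ B vw.1.1 vw.2.1) := by
    intro f hf
    have hf' := (Finset.mem_filter.1 hf).2
    rw [Finset.mem_union]
    by_cases hbad : ∃ v w : Fin 4 × Fin r, (f v, f w) ∈ B v.1 w.1
    · right
      obtain ⟨v, w, hvw⟩ := hbad
      rw [Finset.mem_biUnion]
      exact ⟨(v, w), Finset.mem_univ _, by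
        rw [Finset.mem_filter]
        exact ⟨Finset.mem_univ _, hvw⟩⟩
    left
    push Not at hbad
    have hmem : ∀ v w : Fin 4 × Fin r, v.1 ≠ w.1 → p (v.1, f v) (w.1, f w) ∈ A v.1 (f v) := by
      intro v w hvw
      have h1 := hbad v w
      simp only [hB, Finset.mem_filter, Finset.mem_univ, true_and, not_and, not_not] at h1
      exact hp (v.1, f v) (w.1, f w) (h1 hvw)
    obtain ⟨k, v, b, c, d, α, β, γ, ω, hvb, hvc, hvd, hα, hβ, hγ, heq⟩ := hnet _ hf'
    rw [Finset.mem_biUnion]
    refine ⟨(k, v), Finset.mem_univ _, ?_⟩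
    rw [Finset.mem_filter]
    refine ⟨Finset.mem_univ _, ?_⟩
    simp only [hH, Finset.mem_filter, Finset.mem_univ, true_and]
    have hpos : ∀ v w, 0 < ‖T (lift (p v w))‖⁻¹ := fun v w =>
      inv_pos.2 (norm_pos_iff.2 (hTne v w))
    have h2 : (α * ‖T (lift (p (v.1, f v) (b.1, f b)))‖⁻¹) • lift (p (v.1, f v) (b.1, f b)) +
        (β * ‖T (lift (p (v.1, f v) (c.1, f c)))‖⁻¹) • lift (p (v.1, f v) (c.1, f c)) +
        (γ * ‖T (lift (p (v.1, f v) (d.1, f d)))‖⁻¹) • lift (p (v.1, f v) (d.1, f d)) =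
        T.symm (S k) + ω • T.symm (W k) := by
      have h3 := congrArg T.symm heq
      simp only [hu_def, unit, map_add, map_smul, LinearEquiv.symm_apply_apply, smul_smul] at h3
      exact h3
    have h4 : T.symm (S k) + ω • T.symm (W k) ∈ Submodule.span ℝ {T.symm (S k), T.symm (W k)} :=
      Submodule.add_mem _ (Submodule.subset_span (by simp))
        (Submodule.smul_mem _ _ (Submodule.subset_span (by simp)))
    rw [← h2] at h4
    obtain ⟨w, hw, hw'⟩ := z4_cone (hconv v.1 (f v)) (hmem v b hvb) (hmem v c hvc) (hmem v d hvd)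
      (mul_pos hα (hpos _ _)) (mul_pos hβ (hpos _ _)) (mul_pos hγ (hpos _ _)) h4
    obtain ⟨t, ht⟩ := hline k w hw'
    exact ⟨t, ht ▸ hw⟩
  have hcV : Fintype.card (Fin 4 × Fin r) = 4 * r := by
    rw [Fintype.card_prod, Fintype.card_fin, Fintype.card_fin]
  -- the number of maps with a hit
  have hcard1 : ((((Finset.univ : Finset (Fin N × (Fin 4 × Fin r))).biUnion fun ka =>
        Finset.univ.filter fun f : Fin 4 × Fin r → ι => f ka.2 ∈ H ka.1 ka.2.1).card : ℕ) : ℝ) * n ≤
      N * (4 * r) * ((1 / (16 * (N + 1) * r)) * n * n ^ (4 * r)) := by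
    have h2 : ((((Finset.univ : Finset (Fin N × (Fin 4 × Fin r))).biUnion fun ka =>
        Finset.univ.filter fun f : Fin 4 × Fin r → ι => f ka.2 ∈ H ka.1 ka.2.1).card : ℕ) : ℝ) ≤
        ∑ ka : Fin N × (Fin 4 × Fin r),
        ((Finset.univ.filter fun f : Fin 4 × Fin r → ι => f ka.2 ∈ H ka.1 ka.2.1).card : ℝ) := by
      exact_mod_cast Finset.card_biUnion_le
    calc _ ≤ (∑ ka : Fin N × (Fin 4 × Fin r),
        ((Finset.univ.filter fun f : Fin 4 × Fin r → ι => f ka.2 ∈ H ka.1 ka.2.1).card : ℝ)) * n :=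
          mul_le_mul_of_nonneg_right h2 hn0.le
      _ = ∑ ka : Fin N × (Fin 4 × Fin r),
        ((Finset.univ.filter fun f : Fin 4 × Fin r → ι => f ka.2 ∈ H ka.1 ka.2.1).card : ℝ) * n :=
          Finset.sum_mul _ _ _
      _ ≤ ∑ _ka : Fin N × (Fin 4 × Fin r), ((1 / (16 * (N + 1) * r)) * n * n ^ (4 * r)) :=
          Finset.sum_le_sum fun ka _ => by
            have h5 := z4_card_le ka.2 (H ka.1 ka.2.1)
            rw [hcV] at h5
            exact h5.trans (mul_le_mul_of_nonneg_right (hHc ka.1 ka.2.1).le (by positivity))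
      _ = _ := by
          rw [Finset.sum_const, nsmul_eq_mul, Finset.card_univ, Fintype.card_prod, hcV,
            Fintype.card_fin]
          push_cast
          ring
  -- the number of maps with a disjoint pair
  have hcard2 : ((((Finset.univ : Finset ((Fin 4 × Fin r) × (Fin 4 × Fin r))).biUnion fun vw =>
        Finset.univ.filter fun f : Fin 4 × Fin r → ι => (f vw.1, f vw.2) ∈ B vw.1.1 vw.2.1).card :
          ℕ) : ℝ) ≤ n ^ (4 * r) / 4 := by
    have h2 : ((((Finset.univ : Finset ((Fin 4 × Fin r) × (Fin 4 × Fin r))).biUnion fun vw =>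
        Finset.univ.filter fun f : Fin 4 × Fin r → ι => (f vw.1, f vw.2) ∈ B vw.1.1 vw.2.1).card :
          ℕ) : ℝ) ≤ ∑ vw : (Fin 4 × Fin r) × (Fin 4 × Fin r),
        ((Finset.univ.filter fun f : Fin 4 × Fin r → ι =>
          (f vw.1, f vw.2) ∈ B vw.1.1 vw.2.1).card : ℝ) := by
      exact_mod_cast Finset.card_biUnion_le
    have h3 : ∀ v w : Fin 4 × Fin r,
        ((Finset.univ.filter fun f : Fin 4 × Fin r → ι => (f v, f w) ∈ B v.1 w.1).card : ℝ) ≤
          if v.1 = w.1 then 0 else (1 / (48 * r ^ 2)) * n ^ (4 * r) := by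
      intro v w
      split_ifs with h
      · have h4 : B v.1 w.1 = ∅ := by
          simp [hB, h]
        simp [h4]
      · have hvw : v ≠ w := fun h' => h (by rw [h'])
        have h5 := z4_card_pair v w hvw (B v.1 w.1)
        rw [hcV, ← hn] at h5
        have h6 := hBc v.1 w.1
        rw [if_neg h] at h6
        have h7 : ((Finset.univ.filter fun f : Fin 4 × Fin r → ι =>
            (f v, f w) ∈ B v.1 w.1).card : ℝ) * n ^ 2 ≤
            ((1 / (48 * r ^ 2)) * n ^ (4 * r)) * n ^ 2 := by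
          rw [h5]
          calc _ ≤ (1 / (48 * (r : ℝ) ^ 2)) * n ^ 2 * n ^ (4 * r) :=
                mul_le_mul_of_nonneg_right h6 (by positivity)
            _ = _ := by ring
        exact le_of_mul_le_mul_right h7 (by positivity)
    refine h2.trans ?_
    rw [Fintype.sum_prod_type]
    calc _ ≤ ∑ v : Fin 4 × Fin r, ∑ w : Fin 4 × Fin r,
          (if v.1 = w.1 then (0 : ℝ) else (1 / (48 * r ^ 2)) * n ^ (4 * r)) :=
          Finset.sum_le_sum fun v _ => Finset.sum_le_sum fun w _ => h3 v w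
      _ = n ^ (4 * r) / 4 := by
          rw [← z4_sum (ι := Fin r) (fun _ _ => (1 / (48 * (r : ℝ) ^ 2)) * n ^ (4 * r)),
            Finset.sum_const, nsmul_eq_mul, Finset.card_univ, z4_card, Fintype.card_fin]
          field_simp
          norm_num
  have hgood' : n ^ (4 * r) / 2 ≤ ((Finset.univ.filter fun f : Fin 4 × Fin r → ι =>
      Iso4 r (fun v w => u (v.1, f v) (w.1, f w))).card : ℝ) := by
    rwa [Nat.card_eq_fintype_card, Fintype.card_subtype] at hgood
  have hunion : ((Finset.univ.filter fun f : Fin 4 × Fin r → ι =>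
      Iso4 r (fun v w => u (v.1, f v) (w.1, f w))).card : ℝ) ≤
      ((((Finset.univ : Finset (Fin N × (Fin 4 × Fin r))).biUnion fun ka =>
        Finset.univ.filter fun f : Fin 4 × Fin r → ι => f ka.2 ∈ H ka.1 ka.2.1).card : ℕ) : ℝ) +
      ((((Finset.univ : Finset ((Fin 4 × Fin r) × (Fin 4 × Fin r))).biUnion fun vw =>
        Finset.univ.filter fun f : Fin 4 × Fin r → ι => (f vw.1, f vw.2) ∈ B vw.1.1 vw.2.1).card :
          ℕ) : ℝ) := by
    exact_mod_cast (Finset.card_le_card hcov).trans (Finset.card_union_le _ _)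
  have hfin : (N : ℝ) * (4 * r) * ((1 / (16 * (N + 1) * r)) * n * n ^ (4 * r)) <
      n ^ (4 * r) / 4 * n := by
    have h1 : (N : ℝ) * (4 * r) * ((1 / (16 * (N + 1) * r)) * n * n ^ (4 * r)) =
        (N / (N + 1)) * (n ^ (4 * r) / 4 * n) := by
      field_simp
      ring
    rw [h1]
    have h2 : (N : ℝ) / (N + 1) < 1 := (div_lt_one hN0).2 (by linarith)
    have h3 : 0 < n ^ (4 * r) / 4 * n := by positivity
    nlinarith
  have h6 : n ^ (4 * r) / 4 ≤
      ((((Finset.univ : Finset (Fin N × (Fin 4 × Fin r))).biUnion fun ka =>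
        Finset.univ.filter fun f : Fin 4 × Fin r → ι => f ka.2 ∈ H ka.1 ka.2.1).card : ℕ) : ℝ) := by
    linarith
  have h7 := mul_le_mul_of_nonneg_right h6 hn0.le
  linarith

/-- [R4] the theorem, families of any (different) sizes. -/
theorem main : ∃ c e : ℝ, 0 < c ∧ 0 < e ∧ ∀ (m : Fin 4 → ℕ), (∀ s, 1 ≤ m s) →
    ∀ A : (s : Fin 4) → Fin (m s) → Set E3, (∀ s i, Convex ℝ (A s i)) →
    (∀ s t, s ≠ t → (Nat.card {ij : Fin (m s) × Fin (m t) // ¬ (A s ij.1 ∩ A t ij.2).Nonempty} : ℝ)
      ≤ e * (m s * m t : ℝ)) →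
      ∃ (s : Fin 4) (x d : E3), d ≠ 0 ∧ c * (m s : ℝ) ≤ (met (A s) x d : ℝ) :=
  main_of_core core

end

end Pool.Agent.LPC
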